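import Pool.Agent.H450.FR.BIdl
import Pool.Agent.H450.GG.Fin

set_option autoImplicit false
set_option linter.unusedSectionVars false

namespace Pool.Agent.H450.FR

open Polynomial Module NumberField Pool.Agent.H450.GG Pool.Agent.H450.GW
open Pool.Agent.R493.CR (S)

/-- the automorphisms moving the `b`-th roots of one root -/
theorem t2_of {A : Type} [Field A] [CharZero A] [Algebra.IsAlgebraic ℚ A] [IsAlgClosed A] {F : Type} {b : ℕ}
    (p : ℕ) [Fact p.Prime] {ζ : A} (hζ : IsPrimitiveRoot ζ b) (hb : b ≠ 0) (hp1 : b ∣ p - 1) {θ y : F → A}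
    (hinj : Function.Injective θ) (hperm : ∀ (σ : A ≃ₐ[ℚ] A) i, ∃ j, σ (θ i) = θ j) (hy : ∀ j, y j ^ b = θ j)
    (h0 : ∀ j, θ j ≠ 0) {j0 : F} (ha : W p (θ j0) = (p : ℝ)⁻¹)
    (hi : ∀ i, i ≠ j0 → θ i ∈ Q A p ∧ W p (θ i - 1) < 1) (s t : Fin b) :
    ∃ σ : A ≃ₐ[ℚ] A,
      (∀ j, j ≠ j0 → ∀ u : Fin b, σ (ζ ^ (u : ℕ) * y j) = ζ ^ (u : ℕ) * y j) ∧
        σ (ζ ^ (s : ℕ) * y j0) = ζ ^ (t : ℕ) * y j0 := by
  classical
  have hζQ := zeta_Q p hζ hb hp1
  have hyQ : ∀ j, j ≠ j0 → y j ∈ Q A p := fun j hj => root_Q p hζ hb hp1 (hi j hj).1 (hi j hj).2 (hy j)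
  have hQ : ∀ j, j ≠ j0 → ∀ u : Fin b, ζ ^ (u : ℕ) * y j ∈ Q A p := fun j hj u =>
    mul_mem (pow_mem hζQ _) (hyQ j hj)
  have hyj0 : y j0 ≠ 0 := by
    intro h1
    have h2 := hy j0
    rw [h1, zero_pow hb] at h2
    exact h0 j0 h2.symm
  let S : Set A := {x | ∃ j, j ≠ j0 ∧ ∃ u : Fin b, x = ζ ^ (u : ℕ) * y j}
  let R : Finset A := Finset.univ.image (fun s : Fin b => ζ ^ (s : ℕ) * y j0)
  have hRcard : R.card = b := by
    rw [Finset.card_image_of_injective, Finset.card_univ, Fintype.card_fin]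
    intro s t hst
    exact Fin.ext (hζ.pow_inj s.2 t.2 (mul_right_cancel₀ hyj0 hst))
  have hmemR : ∀ s : Fin b, ζ ^ (s : ℕ) * y j0 ∈ R := fun s => Finset.mem_image_of_mem _ (Finset.mem_univ s)
  obtain ⟨σ, hσ1, hσ2⟩ := trans_of_val p (IntermediateField.adjoin ℚ S)
    (by
      rw [IntermediateField.adjoin_le_iff]
      rintro x ⟨j, hj, u, rfl⟩
      exact hQ j hj u)
    R (by rw [hRcard]; exact hb)
    (by
      intro r hr
      obtain ⟨s, -, rfl⟩ := Finset.mem_image.1 hr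
      rw [hRcard, W_mul, W_zeta p hζ hb, one_mul, ← W_pow, hy, ha])
    (ζ ^ (s : ℕ) * y j0) (hmemR s)
    (by
      intro σ hσ
      have hb' : NeZero b := ⟨hb⟩
      obtain ⟨l, hl⟩ := hperm σ j0
      have hlj : l = j0 := by
        by_contra hne
        have h1 : σ (θ l) = θ l := by
          have h2 : y l ∈ IntermediateField.adjoin ℚ S := by
            apply IntermediateField.subset_adjoin
            exact ⟨l, hne, ⟨0, Nat.pos_of_ne_zero hb⟩, by simp⟩
          rw [← hy l, map_pow, hσ _ h2]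
        rw [← h1] at hl
        exact hne (hinj (σ.injective hl)).symm
      have h1 : (σ (ζ ^ (s : ℕ) * y j0)) ^ b = θ j0 := by
        rw [← map_pow, mul_pow, ← pow_mul, mul_comm (s : ℕ), pow_mul, hζ.pow_eq_one, one_pow, one_mul, hy, hl, hlj]
      obtain ⟨i, hi, h2⟩ := hζ.eq_pow_of_pow_eq_one (ξ := σ (ζ ^ (s : ℕ) * y j0) / y j0)
        (by rw [div_pow, h1, hy, div_self (h0 j0)])
      have h3 : σ (ζ ^ (s : ℕ) * y j0) = ζ ^ i * y j0 := by
        rw [h2, div_mul_cancel₀ _ hyj0]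
      rw [h3]
      exact hmemR ⟨i, hi⟩)
    (ζ ^ (t : ℕ) * y j0) (hmemR t)
  refine ⟨σ, ?_, hσ2⟩
  intro j hj u
  apply hσ1
  apply IntermediateField.subset_adjoin
  exact ⟨j, hj, u, rfl⟩

/-- `S(|F| b ^ M, μ)` for `μ ∣ M` prime to `b` -/
theorem main_F {F : Type} [Field F] [Fintype F] [DecidableEq F] {q M : ℕ} [hq : Fact q.Prime] [NeZero M]
    [Algebra (ZMod q) F] (hM : 2 ≤ M) {h : Fˣ} (hord : orderOf h = M)
    (gen : ∀ S : AddSubgroup F, (∀ x ∈ S, ((h⁻¹ : Fˣ) : F) * x ∈ S) → (∃ x ∈ S, x ≠ 0) → S = ⊤)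
    {b μ : ℕ} (hb2 : 2 ≤ b) (hμ : μ ∣ M) (hcop : Nat.Coprime b μ) : S (Fintype.card F * b ^ M) μ := by
  classical
  intro R
  have hM0 : M ≠ 0 := NeZero.ne M
  have hμ0 : μ ≠ 0 := by
    rintro rfl
    rw [Nat.zero_dvd] at hμ
    omega
  have : NeZero μ := ⟨hμ0⟩
  have := alg_closure
  have hb : b ≠ 0 := by omega
  have hbN : NeZero b := ⟨hb⟩
  obtain ⟨lam, hlam⟩ : ∃ lam : F →ₗ[ZMod q] ZMod q, lam 1 ≠ 0 := by
    by_contra hcon
    push Not at hcon
    have := (Module.forall_dual_apply_eq_zero_iff (ZMod q) (1 : F)).1 hcon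
    exact one_ne_zero this
  have nd : ∀ i : F, i ≠ 0 → ∃ x, lam (i * x) ≠ 0 := by
    intro i hi
    refine ⟨i⁻¹, ?_⟩
    rw [mul_inv_cancel₀ hi]
    exact hlam
  obtain ⟨Bd, hBd⟩ : ∃ Bd, Bd = M ^ (Fintype.card (Bk F M b)) * M ^ (Fintype.card (Bk F M b) ^ 4) := ⟨_, rfl⟩
  have hBd0 : 0 < Bd := by
    rw [hBd]
    exact Nat.mul_pos (pow_pos (Nat.pos_of_ne_zero hM0) _) (pow_pos (Nat.pos_of_ne_zero hM0) _)
  obtain ⟨N, hN⟩ : ∃ N, N = R + Bd := ⟨_, rfl⟩
  -- the primes
  have hq0 : q ≠ 0 := hq.out.ne_zero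
  let Q : ℕ → Prop := fun p => p.Prime ∧ p ≡ 1 [MOD q * M * b]
  have hQinf : (Set.ofPred Q).Infinite := by
    rw [Set.infinite_iff_exists_gt]
    intro m
    obtain ⟨p, hp, hpm, hp1⟩ := Nat.exists_prime_gt_modEq_one (k := q * M * b) m
      (mul_ne_zero (mul_ne_zero hq0 hM0) hb)
    exact ⟨p, ⟨hp, hp1⟩, by omega⟩
  let r : ℕ → ℕ := Nat.nth Q
  have hrQ : ∀ k, Q (r k) := fun k => Nat.nth_mem_of_infinite hQinf k
  have hr : ∀ k, (r k).Prime := fun k => (hrQ k).1
  have hrd : ∀ k, q * M * b ∣ r k - 1 := fun k => (Nat.modEq_iff_dvd' (hr k).one_lt.le).1 (hrQ k).2.symm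
  have hrb : ∀ k, b ∣ r k - 1 := fun k => (dvd_mul_left _ _).trans (hrd k)
  have hrM : ∀ k, M ∣ r k - 1 := fun k => ((dvd_mul_left M q).trans (dvd_mul_right _ b)).trans (hrd k)
  have hrq : ∀ k, q ∣ r k - 1 := fun k => ((dvd_mul_right q M).trans (dvd_mul_right _ b)).trans (hrd k)
  have hrinj : Function.Injective r := Nat.nth_injective hQinf
  let P₁ : Fin N → ℕ := fun k => r k
  let P₂ : Fin 2 → ℕ := fun k => r (N + k)
  have hP₁ : ∀ k, Fact (P₁ k).Prime := fun k => ⟨hr k⟩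
  have hP₂ : ∀ k, Fact (P₂ k).Prime := fun k => ⟨hr (N + k)⟩
  have hPinj : Function.Injective (Sum.elim P₁ P₂) := by
    rintro (k | k) (l | l) h
    · have h1 : r k = r l := h
      have h2 := hrinj h1
      rw [Fin.ext h2]
    · exfalso
      have h1 : r k = r (N + l) := h
      have := hrinj h1
      have := k.2
      omega
    · exfalso
      have h1 : r (N + k) = r l := h
      have := hrinj h1
      have := l.2
      omega
    · have h1 : r (N + k) = r (N + l) := h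
      have h2 := hrinj h1
      rw [Fin.ext (a := k) (b := l) (by omega)]
  obtain ⟨θ, hint, hperm, ht1, hinj, hne, hloc, ⟨j0, hj0, hj⟩⟩ := exists_theta (A := AlgebraicClosure ℚ) hM hord nd gen
    (N := N) (by omega) P₁ P₂ hPinj (fun k => hrM k) (fun k => hrM _) (fun k => hrq k) (fun k => hrq _)
  choose y hy using fun j => IsAlgClosed.exists_pow_nat_eq (θ j) (Nat.pos_of_ne_zero hb)
  obtain ⟨ζ, hζ⟩ := HasEnoughRootsOfUnity.exists_primitiveRoot (AlgebraicClosure ℚ) b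
  let c : Fr (AlgebraicClosure ℚ) F M b :=
    { h := h
      hord := hord
      hM := hM
      θ := θ
      y := y
      ζ := ζ
      hζ := hζ
      hb := hb
      pow := hy
      inj := hinj
      ne := hne
      int := hint
      perm := hperm
      t1 := ht1
      t2 := ⟨j0, t2_of (P₂ 1) hζ hb (hrb _) hinj (fun σ i => by
        obtain ⟨m, x, hσ⟩ := hperm σ
        exact ⟨_, hσ i⟩) hy hne hj0 hj⟩ }
  have hA : ∀ k : Fin N, ∃ a, Fr.TA c (P₁ k) a := by
    intro k
    obtain ⟨a, h1, h2, h3⟩ := hloc k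
    exact ⟨a, h1, h2, h3, not_dvd_of_pred _ (hrb k)⟩
  choose a hA using hA
  have hex := frank c hb2 hμ hcop P₁ (fun k l h => Fin.ext (hrinj h)) a hA (fun k => hrb k)
  have hR : N - M ^ (Fintype.card (Bk F M b)) * M ^ (Fintype.card (Bk F M b) ^ 4) = R := by omega
  rw [hR] at hex
  obtain ⟨F', hF⟩ := hex
  exact ⟨c.geo.K, inferInstance, c.geo.nf, by rw [c.geo.finrank_K, Fr.card_Bk], F', hF⟩

/-- The field generated by an element of order `M`. -/
theorem exists_F (q a M : ℕ) [hq : Fact q.Prime] (ha : a ≠ 0) (hM : M ≠ 0) (hMq : M ∣ q ^ a - 1) :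
    ∃ (F : Type) (_ : Field F) (_ : Fintype F) (_ : Algebra (ZMod q) F) (h : Fˣ), orderOf h = M ∧
      (∀ S : AddSubgroup F, (∀ x ∈ S, ((h⁻¹ : Fˣ) : F) * x ∈ S) → (∃ x ∈ S, x ≠ 0) → S = ⊤) ∧
      Fintype.card F ∣ q ^ a := by
  classical
  obtain ⟨G, hG⟩ : ∃ G : Type, G = GaloisField q a := ⟨_, rfl⟩
  have hfin : Fintype (GaloisField q a) := Fintype.ofFinite _
  have hcard : Fintype.card (GaloisField q a) = q ^ a := by
    rw [← Nat.card_eq_fintype_card, GaloisField.card q a ha]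
  obtain ⟨g, hg⟩ := IsCyclic.exists_ofOrder_eq_natCard (α := (GaloisField q a)ˣ)
  rw [Nat.card_eq_fintype_card, Fintype.card_units, hcard] at hg
  obtain ⟨k, hk⟩ := hMq
  have hk0 : k ≠ 0 := by
    rintro rfl
    rw [mul_zero] at hk
    have h1 : 1 < q ^ a := Nat.one_lt_pow ha hq.out.one_lt
    omega
  have h1 : orderOf (g ^ k) = M := by
    rw [orderOf_pow, hg, hk, Nat.gcd_mul_left_left, Nat.mul_div_cancel _ (Nat.pos_of_ne_zero hk0)]
  set x : GaloisField q a := ((g ^ k : (GaloisField q a)ˣ) : GaloisField q a) with hx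
  have hxo : orderOf x = M := by rw [hx, orderOf_units, h1]
  let E := IntermediateField.adjoin (ZMod q) {x}
  have hxi : IsIntegral (ZMod q) x := Algebra.IsIntegral.isIntegral x
  let pb := IntermediateField.adjoin.powerBasis hxi
  have hpb : algebraMap E (GaloisField q a) pb.gen = x := by
    simp [pb, E]
  have hgo : orderOf pb.gen = M := by
    have h2 := orderOf_injective (algebraMap E (GaloisField q a) : E →* GaloisField q a)
      (algebraMap E (GaloisField q a)).injective pb.gen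
    rw [← h2, ← hxo]
    exact congrArg orderOf hpb
  have hg0 : pb.gen ≠ 0 := by
    intro h0
    rw [h0] at hgo
    have h2 := pow_orderOf_eq_one (0 : E)
    rw [hgo, zero_pow hM] at h2
    exact zero_ne_one h2
  have hFE : Fintype E := Fintype.ofFinite _
  refine ⟨E, inferInstance, hFE, inferInstance, Units.mk0 pb.gen hg0, ?_, ?_, ?_⟩
  · rw [← orderOf_units, Units.val_mk0, hgo]
  · intro S hS ⟨y, hyS, hy0⟩
    have h2 : ∀ n : ℕ, ∀ z ∈ S, (((Units.mk0 pb.gen hg0)⁻¹ : Eˣ) : E) ^ n * z ∈ S := by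
      intro n
      induction n with
      | zero => intro z hz; rwa [pow_zero, one_mul]
      | succ n ih =>
        intro z hz
        rw [pow_succ, mul_assoc]
        exact ih _ (hS z hz)
    have h3 : (((Units.mk0 pb.gen hg0)⁻¹ : Eˣ) : E) ^ (M - 1) = pb.gen := by
      have h4 : pb.gen ^ M = 1 := by rw [← hgo]; exact pow_orderOf_eq_one _
      rw [Units.val_inv_eq_inv_val, Units.val_mk0, inv_pow]
      apply inv_eq_of_mul_eq_one_right
      rw [← pow_succ, Nat.sub_add_cancel (Nat.pos_of_ne_zero hM), h4]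
    have h4 : ∀ z ∈ S, pb.gen * z ∈ S := by
      intro z hz
      have := h2 (M - 1) z hz
      rwa [h3] at this
    have h5 : ∀ f : (ZMod q)[X], ∀ z ∈ S, aeval pb.gen f * z ∈ S := by
      intro f
      induction f using Polynomial.induction_on with
      | C c =>
        intro z hz
        rw [aeval_C]
        have h6 : algebraMap (ZMod q) E c * z = c.val • z := by
          rw [nsmul_eq_mul]
          congr 1
          conv_lhs => rw [← ZMod.natCast_zmod_val c]
          rw [map_natCast]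
        rw [h6]
        exact S.nsmul_mem hz _
      | add f g hf hg =>
        intro z hz
        rw [map_add, add_mul]
        exact S.add_mem (hf z hz) (hg z hz)
      | monomial n c ih =>
        intro z hz
        rw [pow_succ, ← mul_assoc, map_mul, aeval_X, mul_assoc]
        exact ih _ (h4 z hz)
    rw [eq_top_iff]
    intro z _
    obtain ⟨f, hf⟩ := pb.exists_eq_aeval' (z / y)
    have h6 := h5 f y hyS
    rw [← hf, div_mul_cancel₀ _ hy0] at h6
    exact h6
  · have h7 : Fintype.card E = q ^ Module.finrank (ZMod q) E := by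
      rw [Module.card_eq_pow_finrank (K := ZMod q) (V := E), ZMod.card]
    rw [h7]
    apply pow_dvd_pow
    have h8 : Module.finrank (ZMod q) E * Module.finrank E (GaloisField q a) = Module.finrank (ZMod q) (GaloisField q a) :=
      Module.finrank_mul_finrank _ _ _
    rw [GaloisField.finrank q ha] at h8
    exact Nat.le_of_dvd (Nat.pos_of_ne_zero ha) ⟨_, h8.symm⟩

/-- `S(q ^ a b ^ M, μ)` for `M ∣ q ^ a - 1` and `μ ∣ M` prime to `b` -/
theorem main (q a M b μ : ℕ) (hq : q.Prime) (ha : a ≠ 0) (hM : 2 ≤ M) (hMq : M ∣ q ^ a - 1) (hb2 : 2 ≤ b)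
    (hμ : μ ∣ M) (hcop : Nat.Coprime b μ) : S (q ^ a * b ^ M) μ := by
  classical
  have : Fact q.Prime := ⟨hq⟩
  have hM0 : M ≠ 0 := by omega
  have : NeZero M := ⟨hM0⟩
  have hμ0 : μ ≠ 0 := by
    rintro rfl
    rw [Nat.zero_dvd] at hμ
    omega
  obtain ⟨F, i1, i2, i3, h, hord, gen, ⟨e, he⟩⟩ := exists_F q a M ha hM0 hMq
  have h1 := main_F (F := F) (q := q) hM hord gen hb2 hμ hcop
  have he0 : e ≠ 0 := by
    rintro rfl
    rw [mul_zero] at he
    exact absurd he (pow_pos hq.pos a).ne'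
  have h2 := Pool.Agent.R493.CR.mono (mul_ne_zero hμ0 he0) (dvd_mul_right μ e)
    (Pool.Agent.R493.CR.closure hμ0 he0 h1)
  have h3 : q ^ a * b ^ M = Fintype.card F * b ^ M * e := by
    rw [he]
    ring
  rw [h3]
  exact h2

end Pool.Agent.H450.FR
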