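import Pool.Agent.H450.FR.Theta
import Pool.Agent.H450.GW.Geo

set_option autoImplicit false
set_option linter.unusedSectionVars false

namespace Pool.Agent.H450.FR

open Polynomial Pool.Agent.H450.GG Pool.Agent.H450.GW

/-- the points: pairs (index of a root, number of a `b`-th root) -/
abbrev Pt (F : Type) (b : ℕ) := F × Fin b

/-- the blocks: an index `i` and a choice of a `b`-th root at the indices `i + h ^ j` -/
abbrev Bk (F : Type) (M b : ℕ) := F × (ZMod M → Fin b)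

section
variable {F : Type} [Field F] [DecidableEq F] {M b : ℕ} [NeZero M] (h : Fˣ)

/-- the points of a block -/
def bp (w : Bk F M b) : Finset (Pt F b) := Finset.univ.image (fun j : ZMod M => (w.1 + (hp h j : F), w.2 j))

variable {h}

theorem mem_bp {w : Bk F M b} {x : Pt F b} : x ∈ bp h w ↔ ∃ j : ZMod M, w.1 + (hp h j : F) = x.1 ∧ w.2 j = x.2 := by
  unfold bp
  rw [Finset.mem_image]
  constructor
  · rintro ⟨j, -, rfl⟩
    exact ⟨j, rfl, rfl⟩
  · rintro ⟨j, h1, h2⟩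
    exact ⟨j, Finset.mem_univ _, Prod.ext h1 h2⟩

variable (hord : orderOf h = M)
include hord

theorem idx_inj {i : F} {j j' : ZMod M} (hj : i + (hp h j : F) = i + (hp h j' : F)) : j = j' :=
  hp_inj hord (Units.ext (add_left_cancel hj))

theorem bp_fun_inj (w : Bk F M b) : Function.Injective (fun j : ZMod M => ((w.1 + (hp h j : F), w.2 j) : Pt F b)) := by
  intro j j' hjj
  exact idx_inj hord (congrArg Prod.fst hjj)

theorem card_bp (w : Bk F M b) : (bp h w).card = M := by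
  unfold bp
  rw [Finset.card_image_of_injective _ (bp_fun_inj hord w), Finset.card_univ, ZMod.card]

theorem M_ne [Fintype F] : (M : F) ≠ 0 := by
  classical
  intro h0
  have h1 : M ∣ Fintype.card F - 1 := by
    rw [← hord, ← Fintype.card_units]
    exact orderOf_dvd_card
  obtain ⟨k, hk⟩ := h1
  have h2 : ((Fintype.card F - 1 : ℕ) : F) = -1 := by
    rw [Nat.cast_sub Fintype.card_pos, Nat.cast_card_eq_zero]
    simp
  rw [hk] at h2
  push_cast at h2
  rw [h0, zero_mul] at h2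
  exact one_ne_zero (neg_eq_zero.1 h2.symm)

theorem bp_inj [Fintype F] : Function.Injective (bp (b := b) (M := M) h) := by
  intro w w' hww
  have hM := M_ne (F := F) hord
  have h1 : ∀ w : Bk F M b, ∑ x ∈ bp h w, x.1 = M * w.1 + ∑ j : ZMod M, (hp h j : F) := by
    intro w
    unfold bp
    rw [Finset.sum_image fun j _ j' _ hj => bp_fun_inj hord w hj, Finset.sum_add_distrib]
    simp
  have h2 : w.1 = w'.1 := by
    have h3 := h1 w
    rw [hww, h1 w'] at h3
    exact mul_left_cancel₀ hM (add_right_cancel h3).symm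
  refine Prod.ext h2 ?_
  funext j
  have h3 : ((w.1 + (hp h j : F), w.2 j) : Pt F b) ∈ bp h w' := by
    rw [← hww]
    exact mem_bp.2 ⟨j, rfl, rfl⟩
  obtain ⟨j', h4, h5⟩ := mem_bp.1 h3
  simp only at h4 h5
  rw [← h2] at h4
  rw [idx_inj hord h4] at h5
  exact h5.symm

theorem hp_cast (m : ℕ) : hp h (m : ZMod M) = h ^ m := by
  unfold hp
  rw [ZMod.val_natCast]
  symm
  apply pow_eq_pow_mod
  rw [← hord]
  exact pow_orderOf_eq_one h

end

/-- the roots with their `b`-th roots -/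
structure Fr (A F : Type) [Field A] [CharZero A] [Field F] (M b : ℕ) where
  h : Fˣ
  hord : orderOf h = M
  hM : 2 ≤ M
  θ : F → A
  y : F → A
  ζ : A
  hζ : IsPrimitiveRoot ζ b
  hb : b ≠ 0
  pow : ∀ j, y j ^ b = θ j
  inj : Function.Injective θ
  ne : ∀ j, θ j ≠ 0
  int : ∀ j, IsIntegral ℤ (θ j)
  perm : ∀ σ : A ≃ₐ[ℚ] A, ∃ (m : ℕ) (x : F), ∀ i, σ (θ i) = θ ((h : F) ^ m * i + x)
  t1 : ∀ x : F, ∃ σ : A ≃ₐ[ℚ] A, ∀ i, σ (θ i) = θ (i + x)
  t2 : ∃ j0 : F, ∀ s t : Fin b, ∃ σ : A ≃ₐ[ℚ] A,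
    (∀ j, j ≠ j0 → ∀ u : Fin b, σ (ζ ^ (u : ℕ) * y j) = ζ ^ (u : ℕ) * y j) ∧
      σ (ζ ^ (s : ℕ) * y j0) = ζ ^ (t : ℕ) * y j0

namespace Fr

variable {A F : Type} [Field A] [CharZero A] [Algebra.IsAlgebraic ℚ A] [IsAlgClosed A] [Field F] [Fintype F] [DecidableEq F]
variable {M b : ℕ} [NeZero M] (c : Fr A F M b)

/-- the points -/
def r (x : Pt F b) : A := c.ζ ^ (x.2 : ℕ) * c.y x.1

theorem r_pow (x : Pt F b) : c.r x ^ b = c.θ x.1 := by
  unfold r
  rw [mul_pow, c.pow, ← pow_mul, mul_comm (x.2 : ℕ), pow_mul, c.hζ.pow_eq_one, one_pow, one_mul]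

theorem y_ne (j : F) : c.y j ≠ 0 := by
  intro h
  have h1 := c.pow j
  rw [h, zero_pow c.hb] at h1
  exact c.ne j h1.symm

theorem r_inj : Function.Injective c.r := by
  rintro ⟨j, s⟩ ⟨k, t⟩ h
  have h1 := congrArg (· ^ b) h
  simp only [r_pow] at h1
  have h2 : j = k := c.inj h1
  subst h2
  unfold r at h
  have h3 := mul_right_cancel₀ (c.y_ne j) h
  have h4 : s = t := Fin.ext (c.hζ.pow_inj s.2 t.2 h3)
  rw [h4]

theorem of_pow {z : A} {k : F} (h : z ^ b = c.θ k) : ∃ s, z = c.r (k, s) := by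
  have hb : NeZero b := ⟨c.hb⟩
  have h1 : (z / c.y k) ^ b = 1 := by
    rw [div_pow, h, c.pow, div_self (c.ne k)]
  obtain ⟨i, hi, h2⟩ := c.hζ.eq_pow_of_pow_eq_one h1
  refine ⟨⟨i, hi⟩, ?_⟩
  unfold r
  rw [h2, div_mul_cancel₀ _ (c.y_ne k)]

theorem r_perm (σ : A ≃ₐ[ℚ] A) (x : Pt F b) : ∃ y, σ (c.r x) = c.r y ∧ σ (c.θ x.1) = c.θ y.1 := by
  obtain ⟨m, z, hk⟩ := c.perm σ
  obtain ⟨s, hs⟩ := c.of_pow (z := σ (c.r x)) (k := (c.h : F) ^ m * x.1 + z) (by rw [← map_pow, c.r_pow, hk])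
  exact ⟨(_, s), hs, hk _⟩

theorem r_int (x : Pt F b) : IsIntegral ℤ (c.r x) := by
  apply IsIntegral.of_pow (Nat.pos_of_ne_zero c.hb)
  rw [c.r_pow]
  exact c.int _

theorem idx {σ : A ≃ₐ[ℚ] A} {x y : Pt F b} (h : σ (c.r x) = c.r y) : σ (c.θ x.1) = c.θ y.1 := by
  rw [← c.r_pow, ← c.r_pow, map_pow, h]

theorem act (σ : A ≃ₐ[ℚ] A) (w : Bk F M b) {m : ℕ} {z : F} (hσ : ∀ i, σ (c.θ i) = c.θ ((c.h : F) ^ m * i + z)) :
    ∃ w' : Bk F M b, w'.1 = (c.h : F) ^ m * w.1 + z ∧ ∀ x y, σ (c.r x) = c.r y → (x ∈ bp c.h w ↔ y ∈ bp c.h w') := by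
  classical
  obtain ⟨mm, hmm⟩ : ∃ mm : ZMod M, mm = ((m : ℕ) : ZMod M) := ⟨_, rfl⟩
  have hm : ∀ j : ZMod M, (c.h : F) ^ m * (hp c.h j : F) = (hp c.h (j + mm) : F) := by
    intro j
    rw [hp_add c.hord, hmm, hp_cast c.hord, Units.val_mul, Units.val_pow_eq_pow_val, mul_comm]
  choose y hy1 hy2 using fun j : ZMod M => c.r_perm σ (w.1 + (hp c.h (j - mm) : F), w.2 (j - mm))
  have hy3 : ∀ j, (y j).1 = ((c.h : F) ^ m * w.1 + z) + (hp c.h j : F) := by
    intro j
    have h1 := hy2 j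
    rw [hσ] at h1
    rw [← c.inj h1]
    have h2 := hm (j - mm)
    rw [sub_add_cancel] at h2
    rw [← h2]
    ring
  refine ⟨((c.h : F) ^ m * w.1 + z, fun j => (y j).2), rfl, ?_⟩
  intro x x' hxx
  rw [mem_bp, mem_bp]
  constructor
  · rintro ⟨i, h1, h2⟩
    refine ⟨i + mm, ?_⟩
    have h3 : y (i + mm) = x' := by
      apply c.r_inj
      rw [← hy1, ← hxx, add_sub_cancel_right]
      congr 2
      exact Prod.ext h1 h2
    simp only
    rw [← hy3, h3]
    exact ⟨rfl, rfl⟩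
  · rintro ⟨j, h1, h2⟩
    refine ⟨j - mm, ?_⟩
    simp only at h1 h2
    rw [← hy3] at h1
    have h3 : y j = x' := Prod.ext h1 h2
    have h4 := hy1 j
    rw [h3, ← hxx] at h4
    have h5 := c.r_inj (σ.injective h4)
    rw [← h5]
    exact ⟨rfl, rfl⟩

/-- changing one `b`-th root -/
theorem t2' (j : F) (s t : Fin b) : ∃ σ : A ≃ₐ[ℚ] A,
    (∀ x : Pt F b, x.1 ≠ j → σ (c.r x) = c.r x) ∧ σ (c.r (j, s)) = c.r (j, t) := by
  obtain ⟨j0, h⟩ := c.t2
  obtain ⟨τ, hτ'⟩ := c.t1 (j - j0)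
  have hτ : τ (c.θ j0) = c.θ j := by
    rw [hτ']
    congr 1
    ring
  obtain ⟨⟨k, s'⟩, hs1, hs2⟩ := c.r_perm τ.symm (j, s)
  obtain ⟨⟨k', t'⟩, ht1, ht2⟩ := c.r_perm τ.symm (j, t)
  simp only [← hτ, AlgEquiv.symm_apply_apply] at hs2 ht2
  have hk : j0 = k := c.inj hs2
  have hk' : j0 = k' := c.inj ht2
  subst hk hk'
  obtain ⟨σ, h1, h2⟩ := h s' t'
  refine ⟨(τ.symm.trans σ).trans τ, ?_, ?_⟩
  · intro x hx
    rw [AlgEquiv.trans_apply, AlgEquiv.trans_apply]
    obtain ⟨y, hy1, hy2⟩ := c.r_perm τ.symm x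
    have hne : y.1 ≠ j0 := by
      intro h3
      rw [h3] at hy2
      have h4 := congrArg τ hy2
      rw [AlgEquiv.apply_symm_apply, hτ] at h4
      exact hx (c.inj h4)
    have h3 : σ (c.r y) = c.r y := h1 y.1 hne y.2
    rw [hy1, h3, ← hy1, AlgEquiv.apply_symm_apply]
  · rw [AlgEquiv.trans_apply, AlgEquiv.trans_apply, hs1]
    have h3 : σ (c.r (j0, s')) = c.r (j0, t') := h2
    rw [h3, ← ht1, AlgEquiv.apply_symm_apply]

theorem tr_step (i : F) (a a' : ZMod M → Fin b) (s : Finset (ZMod M)) :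
    ∃ σ : A ≃ₐ[ℚ] A, ∀ x y, σ (c.r x) = c.r y →
      (x ∈ bp c.h ((i, a) : Bk F M b) ↔ y ∈ bp c.h ((i, fun j => if j ∈ s then a' j else a j) : Bk F M b)) := by
  classical
  induction s using Finset.induction_on with
  | empty =>
    refine ⟨AlgEquiv.refl, ?_⟩
    intro x y h
    have h1 : c.r x = c.r y := h
    rw [← c.r_inj h1]
    simp only [Finset.notMem_empty, if_false]
  | insert j s hj ih =>
    obtain ⟨σ, hσ⟩ := ih
    set a1 : ZMod M → Fin b := fun j => if j ∈ s then a' j else a j with ha1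
    set a2 : ZMod M → Fin b := fun k => if k ∈ insert j s then a' k else a k with ha2
    have h12 : ∀ k, k ≠ j → a2 k = a1 k := by
      intro k hk
      simp only [ha1, ha2, Finset.mem_insert, hk, false_or]
    obtain ⟨τ, hτ1, hτ2⟩ := c.t2' (i + (hp c.h j : F)) (a1 j) (a2 j)
    refine ⟨σ.trans τ, ?_⟩
    intro x z hxz
    obtain ⟨y, hy, -⟩ := c.r_perm σ x
    rw [hσ x y hy]
    rw [AlgEquiv.trans_apply, hy] at hxz
    by_cases hk : y.1 = i + (hp c.h j : F)
    · have h2 : z.1 = i + (hp c.h j : F) := by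
        obtain ⟨w, hw⟩ := c.r_perm τ (i + (hp c.h j : F), a1 j)
        rw [hτ2] at hw
        have h3 := c.idx hxz
        rw [hk] at h3
        have h4 : w = (i + (hp c.h j : F), a2 j) := (c.r_inj hw.1).symm
        have h5 := hw.2
        rw [h4] at h5
        simp only at h5
        rw [h5] at h3
        exact (c.inj h3).symm
      rw [mem_bp, mem_bp]
      constructor
      · rintro ⟨j', h4, h5⟩
        simp only at h4 h5
        have h6 : j' = j := idx_inj c.hord (h4.trans hk)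
        subst h6
        refine ⟨j', h2.symm, ?_⟩
        have h7 : y = (i + (hp c.h j' : F), a1 j') := Prod.ext hk h5.symm
        rw [h7, hτ2] at hxz
        exact congrArg Prod.snd (c.r_inj hxz)
      · rintro ⟨j', h4, h5⟩
        simp only at h4 h5
        have h6 : j' = j := idx_inj c.hord (h4.trans h2)
        subst h6
        refine ⟨j', hk.symm, ?_⟩
        have h7 : z = (i + (hp c.h j' : F), a2 j') := Prod.ext h2 h5.symm
        rw [h7, ← hτ2] at hxz
        exact (congrArg Prod.snd (c.r_inj (τ.injective hxz))).symm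
    · rw [hτ1 y hk] at hxz
      rw [← c.r_inj hxz, mem_bp, mem_bp]
      constructor
      · rintro ⟨j', h4, h5⟩
        refine ⟨j', h4, ?_⟩
        have h6 : j' ≠ j := by
          rintro rfl
          exact hk h4.symm
        simp only at h5 ⊢
        rw [h12 j' h6, h5]
      · rintro ⟨j', h4, h5⟩
        refine ⟨j', h4, ?_⟩
        have h6 : j' ≠ j := by
          rintro rfl
          exact hk h4.symm
        simp only at h5 ⊢
        rw [← h12 j' h6, h5]

theorem tr (w w' : Bk F M b) : ∃ σ : A ≃ₐ[ℚ] A, ∀ x y, σ (c.r x) = c.r y → (x ∈ bp c.h w ↔ y ∈ bp c.h w') := by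
  classical
  obtain ⟨σ, hσ⟩ := c.t1 (w'.1 - w.1)
  obtain ⟨⟨i, a⟩, hi, h1⟩ := c.act σ w (m := 0) (z := w'.1 - w.1) (fun i => by rw [hσ, pow_zero, one_mul])
  obtain ⟨i', a'⟩ := w'
  simp only [pow_zero, one_mul] at hi
  have hi' : i = i' := by rw [hi]; ring
  subst hi'
  obtain ⟨τ, hτ⟩ := c.tr_step i a a' Finset.univ
  refine ⟨σ.trans τ, ?_⟩
  intro x z hxz
  obtain ⟨y, hy, -⟩ := c.r_perm σ x
  rw [h1 x y hy]
  rw [AlgEquiv.trans_apply, hy] at hxz
  rw [hτ y z hxz]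
  simp only [Finset.mem_univ, if_true]

/-- the configuration -/
noncomputable def geo : Geo A (Pt F b) (Bk F M b) where
  r := c.r
  inj := c.r_inj
  int := c.r_int
  perm σ x := by
    obtain ⟨y, hy, -⟩ := c.r_perm σ x
    exact ⟨y, hy⟩
  pts := bp c.h
  pts_inj := bp_inj c.hord
  act σ w := by
    obtain ⟨m, z, hz⟩ := c.perm σ
    obtain ⟨w', -, h⟩ := c.act σ w hz
    exact ⟨w', h⟩
  tr := c.tr
  w0 := (0, fun _ => ⟨0, Nat.pos_of_ne_zero c.hb⟩)

/-- the index of a block is equivariant -/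
theorem am_idx (σ : A ≃ₐ[ℚ] A) (w : Bk F M b) : σ (c.θ w.1) = c.θ (c.geo.am σ w).1 := by
  obtain ⟨m, z, hz⟩ := c.perm σ
  obtain ⟨w', hw', h⟩ := c.act σ w hz
  have h1 : c.geo.am σ w = w' := c.geo.am_eq fun x => (h x _ (c.geo.pm_spec σ x)).symm
  rw [h1, hw', hz]

/-- the number of the blocks containing two points -/
def nb (x y : Pt F b) : ℕ := (Finset.univ.filter (fun w : Bk F M b => x ∈ bp c.h w ∧ y ∈ bp c.h w)).card

theorem nb_act (σ : A ≃ₐ[ℚ] A) (x y : Pt F b) : c.nb (c.geo.pm σ x) (c.geo.pm σ y) = c.nb x y := by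
  unfold nb
  symm
  refine Finset.card_bij (fun w _ => c.geo.am σ w) ?_ ?_ ?_
  · intro w hw
    rw [Finset.mem_filter] at hw ⊢
    exact ⟨Finset.mem_univ _, (c.geo.mem_am σ w x).2 hw.2.1, (c.geo.mem_am σ w y).2 hw.2.2⟩
  · intro w _ w' _ h
    exact c.geo.am_inj σ h
  · intro w hw
    rw [Finset.mem_filter] at hw
    obtain ⟨w', rfl⟩ := (c.geo.am_bij σ).2 w
    exact ⟨w', by rw [Finset.mem_filter]; exact ⟨Finset.mem_univ _, (c.geo.mem_am σ w' x).1 hw.2.1, (c.geo.mem_am σ w' y).1 hw.2.2⟩, rfl⟩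

theorem tr_pt (x y : Pt F b) : ∃ σ : A ≃ₐ[ℚ] A, c.geo.pm σ x = y := by
  obtain ⟨σ, hσ'⟩ := c.t1 (y.1 - x.1)
  have hσ : σ (c.θ x.1) = c.θ y.1 := by
    rw [hσ']
    congr 1
    ring
  obtain ⟨⟨k, s⟩, hz, hz2⟩ := c.r_perm σ x
  have hk : k = y.1 := c.inj (hz2.symm.trans hσ)
  subst hk
  obtain ⟨τ, -, hτ⟩ := c.t2' y.1 s y.2
  refine ⟨σ.trans τ, ?_⟩
  apply c.geo.pm_eq
  show τ (σ (c.r x)) = c.r y
  rw [hz, hτ]

theorem card_Bk (F : Type) [Fintype F] (M b : ℕ) [NeZero M] : Fintype.card (Bk F M b) = Fintype.card F * b ^ M := by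
  rw [Fintype.card_prod, Fintype.card_fun, Fintype.card_fin, ZMod.card]

theorem nb_self (x : Pt F b) : c.nb x x = M * b ^ (M - 1) := by
  classical
  have hconst : ∀ y : Pt F b, c.nb y y = c.nb x x := by
    intro y
    obtain ⟨σ, hσ⟩ := c.tr_pt x y
    rw [← hσ, c.nb_act]
  have h1 : ∑ y : Pt F b, c.nb y y = Fintype.card (Bk F M b) * M := by
    have h2 : ∀ y : Pt F b, c.nb y y = ∑ w : Bk F M b, if y ∈ bp c.h w then 1 else 0 := by
      intro y
      unfold nb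
      simp only [and_self]
      rw [Finset.card_filter]
    rw [Finset.sum_congr rfl fun y _ => h2 y, Finset.sum_comm]
    have h3 : ∀ w : Bk F M b, ∑ y : Pt F b, (if y ∈ bp c.h w then 1 else 0) = M := by
      intro w
      rw [← Finset.card_filter]
      have : Finset.univ.filter (fun y => y ∈ bp c.h w) = bp c.h w := by ext y; simp
      rw [this, card_bp c.hord]
    rw [Finset.sum_congr rfl fun w _ => h3 w]
    simp
  rw [Finset.sum_congr rfl fun y _ => hconst y, card_Bk F M b] at h1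
  simp only [Finset.sum_const, Finset.card_univ, Fintype.card_prod, Fintype.card_fin, smul_eq_mul] at h1
  have hM := c.hM
  have hb := Nat.pos_of_ne_zero c.hb
  have h2 : b ^ M = b ^ (M - 1) * b := by
    rw [← pow_succ]
    congr 1
    omega
  rw [h2] at h1
  have h3 : 0 < Fintype.card F * b := Nat.mul_pos Fintype.card_pos hb
  apply Nat.eq_of_mul_eq_mul_left h3
  rw [h1]
  ring

theorem nb_zero {j : F} {s t : Fin b} (h : s ≠ t) : c.nb (j, s) (j, t) = 0 := by
  unfold nb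
  rw [Finset.card_eq_zero, Finset.filter_eq_empty_iff]
  intro w _ hw
  obtain ⟨j1, h1, h2⟩ := mem_bp.1 hw.1
  obtain ⟨j2, h3, h4⟩ := mem_bp.1 hw.2
  simp only at h1 h2 h3 h4
  have h5 : j1 = j2 := idx_inj c.hord (h1.trans h3.symm)
  subst h5
  exact h (h2.symm.trans h4)

theorem nb_swap {x : Pt F b} {j : F} (hx : x.1 ≠ j) (s t : Fin b) : c.nb x (j, s) = c.nb x (j, t) := by
  obtain ⟨σ, h1, h2⟩ := c.t2' j s t
  have h3 : c.geo.pm σ x = x := c.geo.pm_eq (h1 x hx)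
  have h4 : c.geo.pm σ (j, s) = (j, t) := c.geo.pm_eq h2
  have h5 := c.nb_act σ x (j, s)
  rw [h3, h4] at h5
  exact h5.symm

/-- the weights -/
def ep (j : F) (s t : Fin b) (x : Pt F b) : ℤ := if x = (j, s) then 1 else if x = (j, t) then -1 else 0

theorem sum_ep {j : F} {s t : Fin b} (hst : s ≠ t) (w : Bk F M b) :
    ∑ x ∈ bp c.h w, ep j s t x = (if (j, s) ∈ bp c.h w then 1 else 0) - (if (j, t) ∈ bp c.h w then 1 else 0) := by
  classical
  have h1 : ∀ x : Pt F b, ep j s t x = (if x = (j, s) then 1 else 0) - (if x = (j, t) then 1 else 0) := by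
    intro x
    unfold ep
    by_cases h1 : x = (j, s)
    · have h2 : x ≠ (j, t) := by
        rintro rfl
        exact hst (congrArg Prod.snd h1).symm
      simp [h1, hst]
    · by_cases h2 : x = (j, t)
      · simp [h2, hst.symm]
      · simp [h1, h2]
  rw [Finset.sum_congr rfl fun x _ => h1 x, Finset.sum_sub_distrib]
  congr 1
  · rw [Finset.sum_ite_eq' (bp c.h w) (j, s) (fun _ => (1 : ℤ))]
  · rw [Finset.sum_ite_eq' (bp c.h w) (j, t) (fun _ => (1 : ℤ))]

theorem hTT {j : F} {s t : Fin b} (hst : s ≠ t) (x : Pt F b) :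
    ∑ w ∈ Finset.univ.filter (fun w : Bk F M b => x ∈ bp c.h w), ∑ y ∈ bp c.h w, ep j s t y =
      (M * b ^ (M - 1) : ℕ) * ep j s t x := by
  classical
  have h1 : ∀ y : Pt F b, ∑ w ∈ Finset.univ.filter (fun w : Bk F M b => x ∈ bp c.h w), (if y ∈ bp c.h w then (1 : ℤ) else 0) =
      c.nb x y := by
    intro y
    unfold nb
    rw [Finset.sum_ite, Finset.sum_const_zero, add_zero, Finset.sum_const, Finset.filter_filter]
    simp
  rw [Finset.sum_congr rfl fun w _ => c.sum_ep hst w, Finset.sum_sub_distrib, h1, h1]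
  by_cases hx1 : x = (j, s)
  · subst hx1
    rw [c.nb_self, c.nb_zero hst]
    simp [ep]
  · by_cases hx2 : x = (j, t)
    · subst hx2
      rw [c.nb_self, c.nb_zero hst.symm]
      simp [ep, hst.symm]
    · have hep : ep j s t x = 0 := by simp [ep, hx1, hx2]
      rw [hep, mul_zero, sub_eq_zero]
      by_cases hj : x.1 = j
      · obtain ⟨x1, x2⟩ := x
        simp only at hj
        subst hj
        rw [c.nb_zero (fun h => hx1 (by rw [h])), c.nb_zero (fun h => hx2 (by rw [h]))]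
      · rw [c.nb_swap hj s t]

end Fr

end Pool.Agent.H450.FR
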