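import Pool.Agent.H450.FR.BGeo
import Pool.Agent.H450.GW.GRank

set_option autoImplicit false
set_option linter.unusedSectionVars false

namespace Pool.Agent.H450.FR

open NumberField Polynomial Pool.Agent.H450.GG Pool.Agent.H450.GW
open scoped nonZeroDivisors

namespace Fr

variable {A F : Type} [Field A] [CharZero A] [Algebra.IsAlgebraic ℚ A] [IsAlgClosed A] [Field F] [Fintype F] [DecidableEq F]
variable {M b : ℕ} [NeZero M] (c : Fr A F M b)

/-- `∏ (z - x)` over the points of a block -/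
noncomputable def e1 (z : ℤ) (w : Bk F M b) : A := ∏ x ∈ bp c.h w, ((z : A) - c.r x)

theorem act_e1 (z : ℤ) (σ : A ≃ₐ[ℚ] A) (w : Bk F M b) : σ (c.e1 z w) = c.e1 z (c.geo.am σ w) := by
  have h1 : bp c.h (c.geo.am σ w) = (bp c.h w).image (c.geo.pm σ) := c.geo.pts_am σ w
  unfold e1
  rw [map_prod, h1, Finset.prod_image (fun x _ y _ h => c.geo.pm_inj σ h)]
  refine Finset.prod_congr rfl fun x _ => ?_
  rw [map_sub, map_intCast]
  congr 1
  exact c.geo.pm_spec σ x

theorem e1_int (z : ℤ) (w : Bk F M b) : IsIntegral ℤ (c.e1 z w) :=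
  IsIntegral.prod _ fun x _ => IsIntegral.sub (by simpa using isIntegral_algebraMap (R := ℤ) (A := A) (x := z)) (c.r_int x)

/-- the root of the index of the block -/
def e2 (w : Bk F M b) : A := c.θ w.1

theorem act_e2 (σ : A ≃ₐ[ℚ] A) (w : Bk F M b) : σ (c.e2 w) = c.e2 (c.geo.am σ w) := c.am_idx σ w

theorem e2_int (w : Bk F M b) : IsIntegral ℤ (c.e2 w) := c.int _

/-- the ideals `(q, ∏ (z - x), θ)` -/
noncomputable def idl (q : ℕ) (z : ℤ) : Ideal (𝓞 c.geo.K) :=
  Ideal.span {(q : 𝓞 c.geo.K), c.geo.io (c.geo.equi (c.act_e1 z)).1 (c.e1_int z _),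
    c.geo.io (c.geo.equi c.act_e2).1 (c.e2_int _)}

theorem idl_ne (q : ℕ) (hq : q ≠ 0) (z : ℤ) : c.idl q z ≠ 0 := by
  intro h
  have h1 : (q : 𝓞 c.geo.K) ∈ c.idl q z := Ideal.subset_span (by simp)
  rw [h] at h1
  have h2 : (q : 𝓞 c.geo.K) = 0 := by simpa using h1
  exact hq (by exact_mod_cast h2)

noncomputable def idl' (q : ℕ) [Fact q.Prime] (z : ℤ) : (Ideal (𝓞 c.geo.K))⁰ :=
  ⟨c.idl q z, mem_nonZeroDivisors_iff_ne_zero.2 (c.idl_ne q (Fact.out : q.Prime).ne_zero z)⟩

theorem cont_idl (p q : ℕ) [Fact p.Prime] (z : ℤ) (w : Bk F M b) {t : ℝ}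
    (h1 : W p (q : A) ≤ t) (h2 : W p (c.e1 z w) ≤ t) (h3 : W p (c.θ w.1) ≤ t)
    (h4 : W p (q : A) = t ∨ W p (c.e1 z w) = t ∨ W p (c.θ w.1) = t) :
    cont (c.geo.wv p w) (c.idl q z) = t := by
  have e1' : c.geo.wv p w (c.geo.io (c.geo.equi (c.act_e1 z)).1 (c.e1_int z _)) = W p (c.e1 z w) := by
    rw [c.geo.wv_io, (c.geo.equi (c.act_e1 z)).2 w]
  have e2' : c.geo.wv p w (c.geo.io (c.geo.equi c.act_e2).1 (c.e2_int _)) = W p (c.θ w.1) := by
    rw [c.geo.wv_io, (c.geo.equi c.act_e2).2 w]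
    rfl
  unfold idl
  apply cont_span (c.geo.wv_na p w)
  · rintro x (rfl | rfl | hx)
    · rw [c.geo.wv_nat]; exact h1
    · rw [e1']; exact h2
    · rw [Set.mem_singleton_iff] at hx
      rw [hx, e2']; exact h3
  · rcases h4 with h4 | h4 | h4
    · exact ⟨(q : 𝓞 c.geo.K), by simp, by rw [c.geo.wv_nat]; exact h4⟩
    · exact ⟨_, Set.mem_insert_of_mem _ (Set.mem_insert _ _), by rw [e1']; exact h4⟩
    · exact ⟨_, Set.mem_insert_of_mem _ (Set.mem_insert_of_mem _ (Set.mem_singleton _)), by rw [e2']; exact h4⟩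

theorem W_e1 (p : ℕ) [Fact p.Prime] (z : ℤ) (w : Bk F M b) : W p (c.e1 z w) = ∏ x ∈ bp c.h w, W p (c.r x - z) := by
  unfold e1
  rw [W_prod]
  exact Finset.prod_congr rfl fun x _ => W_sub_comm p _ _

/-- other primes -/
theorem cont_other (p q : ℕ) [Fact p.Prime] (hq : q.Prime) (hpq : p ≠ q) (z : ℤ) (w : Bk F M b) :
    cont (c.geo.wv p w) (c.idl q z) = 1 := by
  have h1 : W p (q : A) = 1 := by
    have := W_int_eq (A := A) p (z := (q : ℤ)) (by
      intro h
      have h2 : p ∣ q := by exact_mod_cast h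
      rcases (Nat.dvd_prime hq).1 h2 with h3 | h3
      · exact (Fact.out : p.Prime).one_lt.ne' h3
      · exact hpq h3)
    simpa using this
  exact c.cont_idl p q z w h1.le (W_integral p (c.e1_int z w)) (W_integral p (c.int _)) (Or.inl h1)

/-- The prime `p` has type `A` with respect to the root number `a`. -/
structure TA (c : Fr A F M b) (p : ℕ) [Fact p.Prime] (a : F) : Prop where
  wa : W p (c.θ a - 1) ≤ rho M p
  w1 : ∀ i, i ≠ a → W p (c.θ i) < 1
  we : ∀ j : ZMod M, W p (c.θ (a - (hp c.h j : F))) = rho M p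
  pb : ¬ p ∣ b

variable {c}

/-- The point near an integer `z` with `z ^ b ≡ 1`. -/
theorem TA.near {p : ℕ} [Fact p.Prime] {a : F} (h : TA c p a)
    {z : ℤ} (hz : (p : ℤ) ∣ z ^ b - 1) :
    ∃ s : Fin b, W p (c.r (a, s) - z) ≤ rho M p ∧ (∀ x, x ≠ (a, s) → W p (c.r x - z) = 1) ∧ c.r (a, s) ∈ Q A p := by
  have hM0 : M ≠ 0 := NeZero.ne M
  have hlt := rho_lt hM0 p
  have hple := le_rho hM0 p
  have hb := c.hb
  have hWa : W p (c.θ a) = 1 := W_of_near_one (lt_of_le_of_lt h.wa hlt)
  have hWy : W p (c.y a) = 1 := by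
    have h1 := hWa
    rw [← c.pow a, W_pow] at h1
    exact (pow_eq_one_iff_of_nonneg (W_nonneg p _) hb).1 h1
  have hyi : ∀ k, W p (c.y k) ≤ 1 := by
    intro k
    by_contra hcon
    push Not at hcon
    have h1 : 1 < W p (c.y k) ^ b := one_lt_pow₀ hcon hb
    rw [← W_pow, c.pow k] at h1
    exact absurd h1 (not_lt.2 (W_integral p (c.int k)))
  have hz1 : W p ((z : A) ^ b - 1) ≤ rho M p := by
    have := W_int_lt (A := A) p hz
    push_cast at this
    exact this.trans hple
  have hval : W p ((z : A) ^ b - c.y a ^ b) ≤ rho M p := by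
    have h1 : (z : A) ^ b - c.y a ^ b = ((z : A) ^ b - 1) - (c.θ a - 1) := by
      rw [c.pow]
      ring
    rw [h1]
    exact (W_sub_le p _ _).trans (max_le hz1 h.wa)
  have hfar : ∀ j, j ≠ a → W p ((z : A) ^ b - c.y j ^ b) = 1 := by
    intro j hj
    have h1 : (z : A) ^ b - c.y j ^ b = 1 + (((z : A) ^ b - 1) - c.θ j) := by
      rw [c.pow]
      ring
    rw [h1, W_one_add]
    exact lt_of_le_of_lt (W_sub_le p _ _) (max_lt (lt_of_le_of_lt hz1 hlt) (h.w1 j hj))
  obtain ⟨s, hs⟩ := near_exists p c.hζ hb (lt_of_le_of_lt hval hlt)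
  have hother : ∀ x, x ≠ (a, s) → W p (c.r x - z) = 1 := by
    rintro ⟨j, t⟩ hx
    unfold r
    by_cases hj : j = a
    · subst hj
      exact near_unique p c.hζ h.pb hWy hs (fun h' => hx (by rw [show t = s from h']))
    · exact near_one p c.hζ hb (W_int_le p z) (hyi j) (hfar j hj) t
  refine ⟨s, ?_, hother, ?_⟩
  · unfold r
    rw [near_eq p c.hζ hb h.pb hWy hs]
    exact hval
  · apply mem_Q_of_fixed p
    intro σ hσ _
    obtain ⟨y, hy, -⟩ := c.r_perm σ (a, s)
    by_cases hya : y = (a, s)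
    · rw [hy, hya]
    · exfalso
      have h1 := hother y hya
      have h2 : c.r y - z = σ (c.r (a, s) - z) := by
        rw [map_sub, hy, map_intCast]
      rw [h2, hσ] at h1
      have h3 : W p (c.r (a, s) - z) < 1 := hs
      rw [h1] at h3
      exact lt_irrefl _ h3

/-- The content of the ideal. -/
theorem TA.cont {p : ℕ} [Fact p.Prime] {a : F} (h : TA c p a) {z : ℤ} {s : Fin b}
    (hs : W p (c.r (a, s) - z) ≤ rho M p) (ho : ∀ x, x ≠ (a, s) → W p (c.r x - z) = 1) (w : Bk F M b) :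
    cont (c.geo.wv p w) (c.idl p z) = rho M p ^ (if (a, s) ∈ bp c.h w then 1 else 0 : ℤ) := by
  classical
  have hM0 : M ≠ 0 := NeZero.ne M
  by_cases hw : (a, s) ∈ bp c.h w
  · rw [if_pos hw, zpow_one]
    have h3 : W p (c.θ w.1) = rho M p := by
      obtain ⟨j, h1, -⟩ := mem_bp.1 hw
      simp only at h1
      have h4 : w.1 = a - (hp c.h j : F) := by
        rw [← h1]
        ring
      rw [h4]
      exact h.we j
    apply c.cont_idl p p z w
    · rw [W_p]; exact le_rho hM0 p
    · rw [W_e1, ← Finset.mul_prod_erase _ _ hw, Finset.prod_eq_one, mul_one]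
      · exact hs
      · intro x hx
        exact ho x (Finset.ne_of_mem_erase hx)
    · exact h3.le
    · exact Or.inr (Or.inr h3)
  · rw [if_neg hw, zpow_zero]
    apply c.cont_idl p p z w
    · rw [W_p]; exact (inv_p_lt p).le
    · exact W_integral p (c.e1_int z w)
    · exact W_integral p (c.int _)
    · right; left
      rw [W_e1]
      apply Finset.prod_eq_one
      intro x hx
      exact ho x (fun h => hw (h ▸ hx))

end Fr

/-- The rank of the class group. -/
theorem frank {A F : Type} [Field A] [CharZero A] [Algebra.IsAlgebraic ℚ A] [IsAlgClosed A] [Field F] [Fintype F]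
    [DecidableEq F] {M b : ℕ} [NeZero M] (c : Fr A F M b)
    (hb2 : 2 ≤ b) {μ N : ℕ} [NeZero μ] (hμ : μ ∣ M) (hcop : Nat.Coprime b μ)
    (P : Fin N → ℕ) [hP : ∀ k, Fact (P k).Prime] (hinj : Function.Injective P)
    (a : Fin N → F) (hA : ∀ k, Fr.TA c (P k) (a k)) (hPb : ∀ k, b ∣ P k - 1) :
    ∃ F' : Multiplicative (Fin (N - M ^ (Fintype.card (Bk F M b)) * M ^ (Fintype.card (Bk F M b) ^ 4)) → ZMod μ) →*
      ClassGroup (𝓞 c.geo.K), Function.Injective F' := by
  classical
  have hM : M ≠ 0 := NeZero.ne M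
  choose z hz using fun k => exists_order (P k) b (hPb k)
  choose s hs1 hs2 hs3 using fun k => (hA k).near (z := 1) (by simp)
  choose t ht1 ht2 ht3 using fun k => (hA k).near (z := z k) (order_dvd (hz k))
  choose u hu1 hu2 hu3 using fun k => (hA k).near (z := z k ^ 2) (by
    have h1 : (z k ^ 2) ^ b - 1 = (z k ^ b) ^ 2 - 1 ^ 2 := by ring
    rw [h1]
    exact (order_dvd (hz k)).trans (sub_dvd_pow_sub_pow _ _ _))
  have hlt : ∀ k, rho M (P k) < 1 := fun k => rho_lt hM (P k)
  have hne : ∀ k (z1 z2 : ℤ) (s1 s2 : Fin b), W (P k) (c.r (a k, s1) - z1) ≤ rho M (P k) →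
      W (P k) (c.r (a k, s2) - z2) ≤ rho M (P k) → ¬ (P k : ℤ) ∣ z1 - z2 → s1 ≠ s2 := by
    intro k z1 z2 s1 s2 h1 h2 h3 h4
    subst h4
    have h5 := W_int_eq (A := A) (P k) h3
    have h6 : ((z1 - z2 : ℤ) : A) = (c.r (a k, s1) - z2) - (c.r (a k, s1) - z1) := by push_cast; ring
    rw [h6] at h5
    have h7 := W_sub_le (P k) (c.r (a k, s1) - z2) (c.r (a k, s1) - z1)
    rw [h5] at h7
    exact absurd (lt_of_le_of_lt (h7.trans (max_le h2 h1)) (hlt k)) (lt_irrefl _)
  have hst : ∀ k, s k ≠ t k := fun k => hne k 1 (z k) _ _ (hs1 k) (ht1 k) (by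
    have := order_ne (hz k) (k := 0) (l := 1) (by omega) (by omega) (by norm_num)
    simpa using this)
  -- the third point
  let x2 : Fin N → Fin b := fun k => if 3 ≤ b then u k else t k
  have hx2s : ∀ k, s k ≠ x2 k := by
    intro k
    simp only [x2]
    split_ifs with h3
    · exact hne k 1 (z k ^ 2) _ _ (hs1 k) (by have := hu1 k; push_cast at this ⊢; exact this) (by
        have := order_ne (hz k) (k := 0) (l := 2) (by omega) (by omega) (by norm_num)
        simpa using this)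
    · exact hst k
  have hx2Q : ∀ k, c.r (a k, x2 k) ∈ Q A (P k) := by
    intro k
    simp only [x2]
    split_ifs with h3
    · exact hu3 k
    · exact ht3 k
  -- the two blocks
  let wk : Fin N → Fin b → Bk F M b := fun k v =>
    (a k - (hp c.h (0 : ZMod M) : F), fun j => if j = 0 then v else ⟨0, by omega⟩)
  have hwk1 : ∀ k v v', v ≠ v' → ((a k, v) ∈ bp c.h (wk k v) ∧ (a k, v') ∉ bp c.h (wk k v)) := by
    intro k v v' hvv
    rw [mem_bp, mem_bp]
    simp only [wk]
    refine ⟨⟨0, by simp⟩, ?_⟩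
    rintro ⟨j, h1, h2⟩
    have h3 : (a k - (hp c.h (0 : ZMod M) : F)) + (hp c.h j : F) = (a k - (hp c.h (0 : ZMod M) : F)) + (hp c.h (0 : ZMod M) : F) := by
      rw [h1]
      ring
    have h4 : j = 0 := idx_inj c.hord h3
    rw [if_pos h4] at h2
    exact hvv h2
  have hwk2 : ∀ k v v' x, x.1 ≠ a k → (x ∈ bp c.h (wk k v) ↔ x ∈ bp c.h (wk k v')) := by
    intro k v v' x hx
    rw [mem_bp, mem_bp]
    simp only [wk]
    have h5 : ∀ j : ZMod M, (a k - (hp c.h (0 : ZMod M) : F)) + (hp c.h j : F) = x.1 → j ≠ 0 := by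
      rintro j h1 rfl
      apply hx
      rw [← h1]
      ring
    constructor
    · rintro ⟨j, h1, h2⟩
      have := h5 j h1
      rw [if_neg this] at h2
      exact ⟨j, h1, by rw [if_neg this]; exact h2⟩
    · rintro ⟨j, h1, h2⟩
      have := h5 j h1
      rw [if_neg this] at h2
      exact ⟨j, h1, by rw [if_neg this]; exact h2⟩
  have hwk3 : ∀ k v v', ((a k, v) ∈ bp c.h (wk k v') ↔ v = v') := by
    intro k v v'
    constructor
    · intro h1
      by_contra hcon
      exact (hwk1 k v' v (fun h => hcon h.symm)).2 h1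
    · rintro rfl
      obtain ⟨v'', hv⟩ : ∃ v'' : Fin b, v ≠ v'' := by
        by_cases h0 : v = ⟨0, by omega⟩
        · refine ⟨⟨1, by omega⟩, ?_⟩
          rw [h0]
          intro h'
          simpa using congrArg Fin.val h'
        · exact ⟨_, h0⟩
      exact (hwk1 k v v'' hv).1
  have hrank := Geo.rank (g := c.geo) (M := M) (P := P) (ep := fun k => Fr.ep (a k) (s k) (t k))
    (c := M * b ^ (M - 1)) (fun k x => c.hTT (hst k) x) (μ := μ) hM (dvd_mul_right _ _) hinj
    (fun k => c.idl' (P k) 1) (fun k => c.idl' (P k) (z k))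
    (by
      intro k w
      have h1 := (hA k).cont (hs1 k) (hs2 k) w
      have h2 := (hA k).cont (ht1 k) (ht2 k) w
      show cont (c.geo.wv (P k) w) (c.idl (P k) 1) / cont (c.geo.wv (P k) w) (c.idl (P k) (z k)) = _
      rw [h1, h2, ← zpow_sub₀ (rho_pos M (P k)).ne']
      congr 1
      exact (Fr.sum_ep (c := c) (hst k) w).symm)
    (by
      intro k p _ hp w
      show cont (c.geo.wv p w) (c.idl (P k) 1) / cont (c.geo.wv p w) (c.idl (P k) (z k)) = _
      rw [c.cont_other p (P k) (hP k).out hp.symm, c.cont_other p (P k) (hP k).out hp.symm, div_one])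
    (fun k => (a k, s k)) (fun k => (a k, x2 k)) (fun k => wk k (s k)) (fun k => wk k (x2 k)) hs3 hx2Q
    (by
      intro k x
      show ((if x ∈ bp c.h (wk k (s k)) then 1 else 0 : ℤ) + if x = (a k, x2 k) then 1 else 0) =
        (if x ∈ bp c.h (wk k (x2 k)) then 1 else 0) + if x = (a k, s k) then 1 else 0
      by_cases h1 : x.1 = a k
      · obtain ⟨x1, v⟩ := x
        simp only at h1
        subst h1
        have e3 : ∀ v' : Fin b, ((a k, v) = (a k, v')) ↔ v = v' := fun v' => by simp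
        rw [if_congr (hwk3 k v _) rfl rfl, if_congr (hwk3 k v _) rfl rfl, if_congr (e3 _) rfl rfl,
          if_congr (e3 _) rfl rfl]
        ring
      · have e3 : ∀ v : Fin b, x ≠ (a k, v) := fun v h => h1 (by rw [h])
        rw [if_congr (hwk2 k (s k) (x2 k) x h1) rfl rfl, if_neg (e3 _), if_neg (e3 _)])
    (by
      intro k τ hτ
      have hdiv : M * b ^ (M - 1) / M = b ^ (M - 1) := Nat.mul_div_cancel_left _ (Nat.pos_of_ne_zero hM)
      have hμM : (μ : ℤ) ∣ ((M : ℕ) : ℤ) := by exact_mod_cast hμ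
      have h1 := hμM.trans hτ
      rw [hdiv] at h1
      have hcopz : IsCoprime (μ : ℤ) ((b ^ (M - 1) : ℕ) : ℤ) := by
        rw [Nat.isCoprime_iff_coprime]
        exact (Nat.Coprime.pow_left _ hcop).symm
      have hep1 : Fr.ep (a k) (s k) (t k) (a k, s k) = 1 := by simp [Fr.ep]
      by_cases h3 : 3 ≤ b
      · have hx2t : t k ≠ x2 k := by
          simp only [x2]
          rw [if_pos h3]
          exact hne k (z k) (z k ^ 2) _ _ (ht1 k) (by have := hu1 k; push_cast at this ⊢; exact this) (by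
            have := order_ne (hz k) (k := 1) (l := 2) (by omega) (by omega) (by norm_num)
            simpa using this)
        have hep2 : Fr.ep (a k) (s k) (t k) (a k, x2 k) = 0 := by simp [Fr.ep, (hx2s k).symm, hx2t.symm]
        rw [hep1, hep2, sub_zero, mul_one] at h1
        exact hcopz.dvd_of_dvd_mul_left h1
      · have hb : b = 2 := by omega
        have hx2t : x2 k = t k := by
          simp only [x2]
          rw [if_neg h3]
        have hep2 : Fr.ep (a k) (s k) (t k) (a k, x2 k) = -1 := by simp [Fr.ep, hx2t, (hst k).symm]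
        rw [hep1, hep2, mul_assoc] at h1
        have h4 := hcopz.dvd_of_dvd_mul_left h1
        have h5 : IsCoprime (μ : ℤ) 2 := by
          have : IsCoprime ((μ : ℕ) : ℤ) ((2 : ℕ) : ℤ) := by
            rw [Nat.isCoprime_iff_coprime]
            rw [hb] at hcop
            exact hcop.symm
          exact_mod_cast this
        have h6 : (1 - (-1) : ℤ) = 2 := by norm_num
        rw [h6] at h4
        exact h5.dvd_of_dvd_mul_left h4)
  exact hrank

end Pool.Agent.H450.FR
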