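import Pool.Agent.H450.FR.KD

set_option autoImplicit false
set_option linter.unusedSectionVars false

namespace Pool.Agent.H450.FR

open Polynomial Pool.Agent.H450.GG Pool.Agent.H450.GW

section
variable {A : Type} [Field A] [CharZero A] {r : ℕ} [NeZero r]

/-- the standard character of `ℤ / r` -/
def triv {ζ : A} (hζ : IsPrimitiveRoot ζ r) : KD A (ZMod r) Empty r where
  ζ := ζ
  hζ := hζ
  lam := LinearMap.id
  nd i hi := ⟨1, by simpa using hi⟩
  al := Empty.elim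
  a := Empty.elim
  pow := fun t => t.elim
  ne := fun t => t.elim
  int := fun t => t.elim
  ta := Empty.elim
  e x := x.val
  he x := by simp

theorem triv_ch {ζ : A} (hζ : IsPrimitiveRoot ζ r) (x : ZMod r) : (triv hζ).ch x = ζ ^ x.val := rfl

/-- an integral polynomial of degree `< r` -/
def pv (c : ZMod r → ℤ) (x : A) : A := ∑ l, (c l : A) * x ^ l.val

theorem pv_map (c : ZMod r → ℤ) (σ : A ≃ₐ[ℚ] A) (x : A) : σ (pv c x) = pv c (σ x) := by
  unfold pv
  rw [map_sum]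
  refine Finset.sum_congr rfl fun l _ => ?_
  rw [map_mul, map_intCast, map_pow]

theorem pv_int (c : ZMod r → ℤ) {x : A} (hx : IsIntegral ℤ x) : IsIntegral ℤ (pv c x) := by
  apply IsIntegral.sum
  intro l _
  apply IsIntegral.mul _ (hx.pow _)
  simpa using isIntegral_algebraMap (R := ℤ) (A := A) (x := c l)

theorem zeta_mul {ζ : A} (hζ : IsPrimitiveRoot ζ r) (s t : ZMod r) : (ζ ^ s.val) ^ t.val = ζ ^ (s * t).val := by
  rw [← pow_mul]
  apply (triv hζ).ch_of
  show _ = s * t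
  push_cast
  rw [ZMod.natCast_zmod_val, ZMod.natCast_zmod_val]

theorem pv_zeta {ζ : A} (hζ : IsPrimitiveRoot ζ r) (c : ZMod r → ℤ) (t : ZMod r) :
    pv c (ζ ^ t.val) = ∑ l, (c l : A) * (triv hζ).ch (t * l) := by
  unfold pv
  refine Finset.sum_congr rfl fun l _ => ?_
  rw [zeta_mul hζ]
  rfl

/-- the action of the automorphisms on the roots of unity -/
theorem exists_s {ζ : A} (hζ : IsPrimitiveRoot ζ r) (σ : A ≃ₐ[ℚ] A) : ∃ s : (ZMod r)ˣ, σ ζ = ζ ^ (s : ZMod r).val := by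
  have h1 : IsPrimitiveRoot (σ ζ) r := hζ.map_of_injective σ.injective
  obtain ⟨i, -, hi, h2⟩ := (hζ.isPrimitiveRoot_iff).1 h1
  refine ⟨ZMod.unitOfCoprime i hi, ?_⟩
  rw [← h2, ZMod.coe_unitOfCoprime, ZMod.val_natCast]
  exact pow_eq_pow_mod i hζ.pow_eq_one

end

section
variable {A : Type} [Field A] [CharZero A] [Algebra.IsAlgebraic ℚ A] [IsAlgClosed A] {r : ℕ} [NeZero r]

theorem W_nat_inv (p : ℕ) [Fact p.Prime] {m : ℕ} (h : ¬ p ∣ m) : W p ((m : A)⁻¹) = 1 := by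
  rw [W_inv]
  have h1 := W_int_eq (A := A) p (z := (m : ℤ)) (by exact_mod_cast h)
  have h2 : ((m : ℤ) : A) = (m : A) := by simp
  rw [h2] at h1
  rw [h1, inv_one]

theorem nat_Q (p : ℕ) [Fact p.Prime] (m : ℕ) : (m : A) ∈ Q A p := natCast_mem _ m

/-- An integral polynomial with prescribed values at the roots of unity. -/
theorem pol {ζ : A} (hζ : IsPrimitiveRoot ζ r) {ι : Type} [Fintype ι] (P : ι → ℕ) [hP : ∀ i, Fact (P i).Prime]
    (hinj : Function.Injective P) (hr : ∀ i, r ∣ P i - 1) (δ : ι → A) (hδ : ∀ i, δ i ∈ Q A (P i))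
    (hδ1 : ∀ i, W (P i) (δ i) ≤ 1) :
    ∃ c : ZMod r → ℤ, ∀ i, W (P i) (pv c ζ - δ i) = (P i : ℝ)⁻¹ ∧
      ∀ t : ZMod r, t ≠ 1 → W (P i) (pv c (ζ ^ t.val)) ≤ (P i : ℝ)⁻¹ := by
  classical
  have hζQ : ∀ i, ζ ∈ Q A (P i) := fun i => zeta_Q (P i) hζ (NeZero.ne r) (hr i)
  have hpr : ∀ i, ¬ P i ∣ r := fun i => not_dvd_of_pred (P i) (hr i)
  set k := triv hζ with hk
  have hch : ∀ x, k.ch x = ζ ^ x.val := fun x => rfl
  set x : ZMod r → ι → A := fun l i => (r : A)⁻¹ * k.ch (-l) * δ i with hx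
  have hxQ : ∀ l i, x l i ∈ Q A (P i) := fun l i =>
    mul_mem (mul_mem (inv_mem (nat_Q _ r)) (pow_mem (hζQ i) _)) (hδ i)
  have hx1 : ∀ l i, W (P i) (x l i) ≤ 1 := by
    intro l i
    rw [hx]
    simp only
    rw [W_mul, W_mul, W_nat_inv _ (hpr i), k.W_ch, one_mul, one_mul]
    exact hδ1 i
  choose c1 hc1 using fun l => crt P hinj (x l) (hxQ l) (hx1 l)
  set V : ι → A := fun i => δ i - ∑ l ∈ Finset.univ.erase (0 : ZMod r), (c1 l : A) * k.ch l with hV
  have hVQ : ∀ i, V i ∈ Q A (P i) := fun i =>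
    sub_mem (hδ i) (sum_mem fun l _ => mul_mem (intCast_mem _ _) (pow_mem (hζQ i) _))
  have hV1 : ∀ i, W (P i) (V i) ≤ 1 := by
    intro i
    refine (W_sub_le _ _ _).trans (max_le (hδ1 i) ?_)
    apply W_sum_le _ _ _ _ zero_le_one
    intro l _
    rw [W_mul, k.W_ch, mul_one]
    exact W_int_le _ _
  obtain ⟨c0, hc0⟩ := crt P hinj V hVQ hV1
  set c : ZMod r → ℤ := fun l => if l = 0 then c0 else c1 l with hc
  have hsum : ∀ (t : ZMod r), ∑ l, (c l : A) * k.ch (t * l) =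
      c0 + ∑ l ∈ Finset.univ.erase (0 : ZMod r), (c1 l : A) * k.ch (t * l) := by
    intro t
    rw [← Finset.add_sum_erase _ _ (Finset.mem_univ (0 : ZMod r))]
    congr 1
    · simp [hc, k.ch_zero]
    · refine Finset.sum_congr rfl fun l hl => ?_
      simp [hc, Finset.ne_of_mem_erase hl]
  have h1 : ∀ i, W (P i) (∑ l, (c l : A) * k.ch (1 * l) - δ i) = (P i : ℝ)⁻¹ := by
    intro i
    rw [hsum, ← hc0 i, W_sub_comm]
    congr 1
    rw [hV]
    simp only [one_mul]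
    ring
  have h2 : ∀ i l, W (P i) ((c l : A) - x l i) ≤ (P i : ℝ)⁻¹ := by
    intro i
    have h3 : ∀ l, l ≠ 0 → W (P i) ((c l : A) - x l i) ≤ (P i : ℝ)⁻¹ := by
      intro l hl
      rw [W_sub_comm]
      simp only [hc, if_neg hl]
      exact (hc1 l i).le
    intro l
    by_cases hl : l = 0
    · subst hl
      have h4 : ∑ l, x l i * k.ch (1 * l) = δ i := by
        have h5 : ∀ l, x l i * k.ch (1 * l) = (r : A)⁻¹ * δ i := by
          intro l
          rw [hx]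
          simp only
          have h6 : k.ch (-l) * k.ch (1 * l) = 1 := by
            rw [← k.ch_add, one_mul, neg_add_cancel, k.ch_zero]
          linear_combination ((r : A)⁻¹ * δ i) * h6
        rw [Finset.sum_congr rfl fun l _ => h5 l, Finset.sum_const, Finset.card_univ, ZMod.card, nsmul_eq_mul,
          ← mul_assoc, mul_inv_cancel₀ (by exact_mod_cast NeZero.ne r), one_mul]
      have h7 : (c 0 : A) - x 0 i = (∑ l, (c l : A) * k.ch (1 * l) - δ i) -
          ∑ l ∈ Finset.univ.erase (0 : ZMod r), ((c l : A) - x l i) * k.ch (1 * l) := by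
        rw [← h4, ← Finset.sum_sub_distrib, ← Finset.add_sum_erase _ _ (Finset.mem_univ (0 : ZMod r)), mul_zero,
          k.ch_zero, mul_one, mul_one]
        have h8 : ∑ l ∈ Finset.univ.erase (0 : ZMod r), ((c l : A) * k.ch (1 * l) - x l i * k.ch (1 * l)) =
            ∑ l ∈ Finset.univ.erase (0 : ZMod r), ((c l : A) - x l i) * k.ch (1 * l) :=
          Finset.sum_congr rfl fun l _ => by ring
        rw [h8]
        ring
      rw [h7]
      refine (W_sub_le _ _ _).trans (max_le (h1 i).le ?_)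
      apply W_sum_le _ _ _ _ (inv_p_pos (P i)).le
      intro l hl
      rw [W_mul, k.W_ch, mul_one]
      exact h3 l (Finset.ne_of_mem_erase hl)
    · exact h3 l hl
  refine ⟨c, fun i => ⟨?_, ?_⟩⟩
  · have h3 := h1 i
    rw [← pv_zeta hζ c 1, ZMod.val_one_eq_one_mod, ← pow_eq_pow_mod 1 hζ.pow_eq_one, pow_one] at h3
    exact h3
  · intro t ht
    rw [pv_zeta hζ]
    have h4 : ∑ l, x l i * k.ch (t * l) = 0 := by
      have h5 : ∀ l, x l i * k.ch (t * l) = ((r : A)⁻¹ * δ i) * k.ch ((t - 1) * l) := by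
        intro l
        rw [hx]
        simp only
        have h6 : k.ch ((t - 1) * l) = k.ch (-l) * k.ch (t * l) := by
          rw [← k.ch_add]
          congr 1
          ring
        rw [h6]
        ring
      rw [Finset.sum_congr rfl fun l _ => h5 l, ← Finset.mul_sum, k.orth, if_neg (sub_ne_zero.2 ht), mul_zero]
    have h5 : ∑ l, (c l : A) * k.ch (t * l) = ∑ l, ((c l : A) - x l i) * k.ch (t * l) := by
      rw [← sub_zero (∑ l, (c l : A) * k.ch (t * l)), ← h4, ← Finset.sum_sub_distrib]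
      exact Finset.sum_congr rfl fun l _ => by ring
    rw [h5]
    apply W_sum_le _ _ _ _ (inv_p_pos (P i)).le
    intro l _
    rw [W_mul, k.W_ch, mul_one]
    exact h2 i l

theorem val_one' {ζ : A} (hζ : IsPrimitiveRoot ζ r) : ζ ^ (1 : ZMod r).val = ζ := by
  rw [ZMod.val_one_eq_one_mod, ← pow_eq_pow_mod 1 hζ.pow_eq_one, pow_one]

/-- The cyclic field of degree `M`. -/
theorem exists_cyc (M : ℕ) [NeZero M] (hM : 2 ≤ M) {ζ : A} (hζ : IsPrimitiveRoot ζ M) {ι₁ ι₂ : Type} [Fintype ι₁]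
    [Fintype ι₂] [Nonempty ι₂] (P₁ : ι₁ → ℕ) [hP₁ : ∀ i, Fact (P₁ i).Prime] (P₂ : ι₂ → ℕ) [hP₂ : ∀ i, Fact (P₂ i).Prime]
    (hinj : Function.Injective (Sum.elim P₁ P₂)) (h1 : ∀ i, M ∣ P₁ i - 1) (h2 : ∀ i, M ∣ P₂ i - 1) :
    ∃ om : ZMod M → A, (∀ j, IsIntegral ℤ (om j)) ∧ (∀ σ : A ≃ₐ[ℚ] A, ∃ κ : ZMod M, ∀ j, σ (om j) = om (j + κ)) ∧
      (∀ i, ∃ z : A, W (P₁ i) z = rho M (P₁ i) ∧ ∀ j, W (P₁ i) (om j - 1 - ζ ^ j.val * z) ≤ rho M (P₁ i) ^ 2) ∧
      (∀ i, ∃ C : ZMod M, ∀ j, om j ∈ Q A (P₂ i) ∧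
        W (P₂ i) (om j - (if j + C = 0 then (M : A) else 0)) ≤ (P₂ i : ℝ)⁻¹) ∧
      (Nonempty ι₁ → ∃ σ : A ≃ₐ[ℚ] A, ∀ j, σ (om j) = om (j + 1)) := by
  classical
  have hM0 : M ≠ 0 := NeZero.ne M
  set P : ι₁ ⊕ ι₂ → ℕ := Sum.elim P₁ P₂ with hP
  have hPF : ∀ i, Fact (P i).Prime := by
    rintro (i | i)
    · exact hP₁ i
    · exact hP₂ i
  have hr : ∀ i, M ∣ P i - 1 := by
    rintro (i | i)
    · exact h1 i
    · exact h2 i
  obtain ⟨c, hc⟩ := pol hζ P hinj hr (Sum.elim (fun _ => -1) (fun _ => 0)) (by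
      rintro (i | i)
      · exact neg_mem (one_mem _)
      · exact zero_mem _) (by
      rintro (i | i)
      · simp only [Sum.elim_inl]
        rw [W_neg, W_one]
      · simp only [Sum.elim_inr]
        rw [W_zero]
        exact zero_le_one)
  set al : (ZMod M)ˣ → A := fun t => 1 + pv c (ζ ^ ((t⁻¹ : (ZMod M)ˣ) : ZMod M).val) with hal
  have hal1 : al 1 = 1 + pv c ζ := by
    rw [hal]
    simp only [inv_one, Units.val_one]
    rw [val_one' hζ]
  have hne : ∀ i t, t ≠ 1 → W (P i) (al t - 1) ≤ (P i : ℝ)⁻¹ := by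
    intro i t ht
    have e1 : al t - 1 = pv c (ζ ^ ((t⁻¹ : (ZMod M)ˣ) : ZMod M).val) := by
      rw [hal]
      simp only
      ring
    rw [e1]
    apply (hc i).2
    intro h
    apply ht
    have h3 : (t⁻¹ : (ZMod M)ˣ) = 1 := Units.ext h
    rw [← inv_inv t, h3, inv_one]
  have hal2 : ∀ i t, W (P₂ i) (al t - 1) ≤ (P₂ i : ℝ)⁻¹ := by
    intro i t
    by_cases ht : t = 1
    · rw [ht, hal1]
      have h3 := (hc (Sum.inr i)).1
      simp only [Sum.elim_inr, sub_zero] at h3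
      rw [add_sub_cancel_left]
      exact h3.le
    · exact hne (Sum.inr i) t ht
  have hal3 : ∀ i, W (P₁ i) (al 1) = (P₁ i : ℝ)⁻¹ := by
    intro i
    rw [hal1]
    have h3 := (hc (Sum.inl i)).1
    simp only [Sum.elim_inl, sub_neg_eq_add] at h3
    rw [add_comm]
    exact h3
  have hal4 : ∀ i t, W (P₂ i) (al t) = 1 := by
    intro i t
    have e1 : al t = 1 + (al t - 1) := by ring
    rw [e1]
    exact W_one_add _ (lt_of_le_of_lt (hal2 i t) (inv_p_lt _))
  have hal5 : ∀ i t, t ≠ 1 → W (P₁ i) (al t) = 1 := by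
    intro i t ht
    have e1 : al t = 1 + (al t - 1) := by ring
    rw [e1]
    exact W_one_add _ (lt_of_le_of_lt (hne (Sum.inl i) t ht) (inv_p_lt _))
  have halne : ∀ t, al t ≠ 0 := by
    intro t h
    obtain ⟨i⟩ := (inferInstance : Nonempty ι₂)
    have h3 := hal4 i t
    rw [h, W_zero] at h3
    exact zero_ne_one h3
  have hζi : IsIntegral ℤ ζ := hζ.isIntegral (Nat.pos_of_ne_zero hM0)
  choose a ha using fun t => IsAlgClosed.exists_pow_nat_eq (al t) (Nat.pos_of_ne_zero hM0)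
  let k : KD A (ZMod M) (ZMod M)ˣ M :=
    { ζ := ζ
      hζ := hζ
      lam := LinearMap.id
      nd := fun i hi => ⟨1, by simpa using hi⟩
      al := al
      a := a
      pow := ha
      ne := halne
      int := fun t => by
        rw [hal]
        exact isIntegral_one.add (pv_int c (hζi.pow _))
      ta := fun t => (t : ZMod M)
      e := fun x => x.val
      he := fun x => by simp }
  have hkch : ∀ j, k.ch j = ζ ^ j.val := fun j => rfl
  have hζQ : ∀ i, ζ ∈ Q A (P i) := fun i => zeta_Q (P i) hζ hM0 (hr i)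
  have halQ : ∀ i t, al t ∈ Q A (P i) := fun i t =>
    add_mem (one_mem _) (sum_mem fun l _ => mul_mem (intCast_mem _ _) (pow_mem (pow_mem (hζQ i) _) _))
  have hact : ∀ (σ : A ≃ₐ[ℚ] A), ∃ κ : ZMod M, ∀ j, σ (k.th j) = k.th (j + κ) := by
    intro σ
    obtain ⟨s, hs⟩ := exists_s hζ σ
    have hπ : ∀ t, σ (k.al t) = k.al ((Equiv.mulRight s⁻¹) t) := by
      intro t
      show σ (al t) = al (t * s⁻¹)
      rw [hal]
      simp only [map_add, map_one, pv_map, map_pow, hs, zeta_mul hζ, mul_inv, inv_inv, Units.val_mul]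
      rw [mul_comm (s : ZMod M)]
    obtain ⟨cc, hcc⟩ := k.exists_c hπ
    refine ⟨((s⁻¹ : (ZMod M)ˣ) : ZMod M) * ∑ t, (cc t : ZMod M) * k.ta t, fun j => ?_⟩
    have h3 := k.act σ s s (Equiv.mulRight s⁻¹) cc hs hcc (by
      intro t
      show (t : ZMod M) = ((t * s⁻¹ : (ZMod M)ˣ) : ZMod M) * s
      rw [Units.val_mul, mul_assoc, Units.inv_mul, mul_one]) j
    rw [h3]
    congr 2
    have h4 : (algebraMap (ZMod M) (ZMod M)) (s : ZMod M) = s := rfl
    rw [h4, Units.mul_inv, one_mul]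
  refine ⟨k.th, k.th_int, hact, ?_, ?_, ?_⟩
  · intro i
    have hp : (P₁ i).Prime := (hP₁ i).out
    have hν0 := rho_pos M (P₁ i)
    have hν1 := rho_lt hM0 (P₁ i)
    have ha1 : W (P₁ i) (k.a 1) = rho M (P₁ i) := by
      have h3 : W (P₁ i) (k.a 1) ^ M = rho M (P₁ i) ^ M := by
        rw [← W_pow, k.pow, rho_pow hM0]
        exact hal3 i
      exact (pow_left_inj₀ (W_nonneg _ _) hν0.le hM0).1 h3
    have hWy : ∀ u, W (P₁ i) (k.y u) = rho M (P₁ i) ^ u.val := by
      intro u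
      rw [k.W_y (P₁ i) 1 ha1 (hal5 i) u]
      congr 1
      show (u * ((1 : (ZMod M)ˣ) : ZMod M)).val = u.val
      rw [Units.val_one, mul_one]
    have h1v : (1 : ZMod M).val = 1 := by
      have : Fact (1 < M) := ⟨by omega⟩
      exact ZMod.val_one M
    have h01 : (0 : ZMod M) ≠ 1 := by
      intro h
      have := congrArg ZMod.val h
      rw [ZMod.val_zero, h1v] at this
      exact zero_ne_one this
    refine ⟨k.y 1, ?_, ?_⟩
    · rw [hWy, h1v, pow_one]
    · intro j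
      have e1 : k.th j - 1 - ζ ^ j.val * k.y 1 = ∑ u ∈ (Finset.univ.erase (0 : ZMod M)).erase 1, k.ch (j * u) * k.y u := by
        have e2 : k.th j = ∑ u, k.ch (j * u) * k.y u := rfl
        rw [e2, ← Finset.add_sum_erase _ _ (Finset.mem_univ (0 : ZMod M)),
          ← Finset.add_sum_erase (Finset.univ.erase (0 : ZMod M)) _ (Finset.mem_erase.2 ⟨h01.symm, Finset.mem_univ (1 : ZMod M)⟩)]
        have e3 : k.y 0 = 1 := by
          show ∏ t, k.a t ^ (0 * k.ta t).val = 1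
          simp
        rw [mul_zero, k.ch_zero, e3, mul_one, mul_one, hkch j]
        ring
      rw [e1]
      apply W_sum_le _ _ _ _ (pow_nonneg hν0.le 2)
      intro u hu
      rw [W_mul, k.W_ch, one_mul, hWy]
      apply pow_le_pow_of_le_one hν0.le hν1.le
      have hu1 := Finset.ne_of_mem_erase hu
      have hu0 := Finset.ne_of_mem_erase (Finset.mem_of_mem_erase hu)
      by_contra hcon
      have h3 : u.val = 0 ∨ u.val = 1 := by omega
      rcases h3 with h3 | h3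
      · exact hu0 ((ZMod.val_eq_zero u).1 h3)
      · apply hu1
        apply ZMod.val_injective M
        rw [h3, h1v]
  · intro i
    obtain ⟨C, hC⟩ := k.local_one (P₂ i) (not_dvd_of_pred (P₂ i) (h2 i)) (inv_p_pos (P₂ i)).le (inv_p_lt (P₂ i)) (hal2 i)
    refine ⟨C, fun j => ⟨?_, ?_⟩⟩
    · exact k.th_Q (P₂ i) (h2 i) (halQ (Sum.inr i)) (fun t => lt_of_le_of_lt (hal2 i t) (inv_p_lt _)) j
    · have h3 := (hC j).1
      rwa [ZMod.card] at h3
  · rintro ⟨i⟩
    obtain ⟨σ, -, hσ⟩ := k.trans (P₁ i) (h1 i) 1 (hal3 i)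
      (fun t ht => lt_of_le_of_lt (hne (Sum.inl i) t ht) (inv_p_lt _)) (halQ (Sum.inl i)) ∅ (by simp)
    exact ⟨σ, hσ⟩

end

end Pool.Agent.H450.FR
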