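import Pool.Agent.H450.FR.Cyc

set_option autoImplicit false
set_option linter.unusedSectionVars false

namespace Pool.Agent.H450.FR

open Polynomial Pool.Agent.H450.GG Pool.Agent.H450.GW

section
variable {F : Type} [Field F] {M : ℕ} [NeZero M] (h : Fˣ)

/-- the powers of `h` -/
def hp (j : ZMod M) : Fˣ := h ^ j.val

variable {h} (hord : orderOf h = M)
include hord

theorem hp_add (i j : ZMod M) : hp h (i + j) = hp h i * hp h j := by
  unfold hp
  rw [← pow_add, ZMod.val_add]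
  symm
  apply pow_eq_pow_mod
  rw [← hord]
  exact pow_orderOf_eq_one h

omit hord in
theorem hp_zero : hp h (0 : ZMod M) = 1 := by
  unfold hp
  rw [ZMod.val_zero, pow_zero]

theorem hp_neg (j : ZMod M) : hp h j * hp h (-j) = 1 := by
  rw [← hp_add hord, add_neg_cancel, hp_zero]

theorem hp_inj {i j : ZMod M} (hij : hp h i = hp h j) : i = j := by
  unfold hp at hij
  apply ZMod.val_injective M
  apply pow_injOn_Iio_orderOf (x := h) _ _ hij
  · rw [Set.mem_Iio, hord]
    exact ZMod.val_lt i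
  · rw [Set.mem_Iio, hord]
    exact ZMod.val_lt j

theorem hp_neg_one (hM : 2 ≤ M) : hp h (-1 : ZMod M) = h⁻¹ := by
  have h1 := hp_neg hord (1 : ZMod M)
  have h2 : hp h (1 : ZMod M) = h := by
    unfold hp
    have : Fact (1 < M) := ⟨by omega⟩
    rw [ZMod.val_one, pow_one]
  rw [h2] at h1
  exact (inv_eq_of_mul_eq_one_right h1).symm

end

section
variable {A : Type} [Field A] [CharZero A] [Algebra.IsAlgebraic ℚ A] [IsAlgClosed A]

/-- the character of a finite field -/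
def trivF {F : Type} [Field F] [Fintype F] {q : ℕ} [NeZero q] [Algebra (ZMod q) F] {ζ : A} (hζ : IsPrimitiveRoot ζ q)
    (lam : F →ₗ[ZMod q] ZMod q) (nd : ∀ i : F, i ≠ 0 → ∃ x, lam (i * x) ≠ 0) : KD A F Empty q where
  ζ := ζ
  hζ := hζ
  lam := lam
  nd := nd
  al := Empty.elim
  a := Empty.elim
  pow := fun t => t.elim
  ne := fun t => t.elim
  int := fun t => t.elim
  ta := Empty.elim
  e x := (lam x).val
  he x := by simp

theorem inv_le_rho_sq {M p : ℕ} [Fact p.Prime] (hM : 2 ≤ M) : (p : ℝ)⁻¹ ≤ rho M p ^ 2 := by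
  rw [← rho_pow (by omega : M ≠ 0) p]
  exact pow_le_pow_of_le_one (rho_pos M p).le (rho_lt (by omega) p).le hM

/-- the twisted sums -/
theorem exists_x {F : Type} [Field F] [Fintype F] [DecidableEq F] {q M : ℕ} [NeZero q] [NeZero M] [Algebra (ZMod q) F]
    (k : KD A F Empty q) {h : Fˣ} (hord : orderOf h = M) {ζM : A} (hζM : IsPrimitiveRoot ζM M) (p : ℕ) [Fact p.Prime]
    (hqp : q ∣ p - 1) (hMp : M ∣ p - 1) (hn : ¬ p ∣ Fintype.card F) :
    ∃ x : F, W p (∑ j : ZMod M, ζM ^ j.val * k.ch (-(hp h j : F) * x)) = 1 := by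
  classical
  by_contra hcon
  push Not at hcon
  have hζMQ := zeta_Q p hζM (NeZero.ne M) hMp
  have hchQ : ∀ x, k.ch x ∈ Q A p := fun x => pow_mem (zeta_Q p k.hζ (NeZero.ne q) hqp) _
  have h1 : ∀ x : F, W p (∑ j : ZMod M, ζM ^ j.val * k.ch (-(hp h j : F) * x)) ≤ (p : ℝ)⁻¹ := by
    intro x
    apply le_inv_p p
    · exact sum_mem fun j _ => mul_mem (pow_mem hζMQ _) (hchQ _)
    · refine lt_of_le_of_ne ?_ (hcon x)
      apply W_sum_le p _ _ _ zero_le_one
      intro j _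
      rw [W_mul, k.W_ch, mul_one, W_zeta p hζM (NeZero.ne M)]
  have h2 : ∑ x : F, k.ch x * ∑ j : ZMod M, ζM ^ j.val * k.ch (-(hp h j : F) * x) = (Fintype.card F : A) := by
    have h3 : ∀ x : F, k.ch x * ∑ j : ZMod M, ζM ^ j.val * k.ch (-(hp h j : F) * x) =
        ∑ j : ZMod M, ζM ^ j.val * k.ch ((1 - (hp h j : F)) * x) := by
      intro x
      rw [Finset.mul_sum]
      refine Finset.sum_congr rfl fun j _ => ?_
      have h4 : k.ch ((1 - (hp h j : F)) * x) = k.ch x * k.ch (-(hp h j : F) * x) := by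
        rw [← k.ch_add]
        congr 1
        ring
      rw [h4]
      ring
    rw [Finset.sum_congr rfl fun x _ => h3 x, Finset.sum_comm, Finset.sum_eq_single 0]
    · rw [← Finset.mul_sum, k.orth, hp_zero, Units.val_one, sub_self, if_pos rfl, ZMod.val_zero, pow_zero, one_mul]
    · intro j _ hj
      rw [← Finset.mul_sum, k.orth, if_neg, mul_zero]
      intro h5
      apply hj
      apply hp_inj hord
      rw [hp_zero]
      apply Units.ext
      rw [Units.val_one]
      exact (sub_eq_zero.1 h5).symm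
    · intro h5
      exact absurd (Finset.mem_univ _) h5
  have h3 : W p (Fintype.card F : A) ≤ (p : ℝ)⁻¹ := by
    rw [← h2]
    apply W_sum_le p _ _ _ (inv_p_pos p).le
    intro x _
    rw [W_mul, k.W_ch, one_mul]
    exact h1 x
  have h4 := W_int_eq (A := A) p (z := (Fintype.card F : ℤ)) (by exact_mod_cast hn)
  have h5 : ((Fintype.card F : ℤ) : A) = (Fintype.card F : A) := by simp
  rw [h5] at h4
  rw [h4] at h3
  exact absurd (inv_p_lt p) (not_lt.2 h3)

theorem exists_th {F : Type} [Field F] [Fintype F] [DecidableEq F] {q M : ℕ} [hq : Fact q.Prime] [NeZero M]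
    [Algebra (ZMod q) F] (hM : 2 ≤ M) {h : Fˣ} (hord : orderOf h = M) {lam : F →ₗ[ZMod q] ZMod q}
    (nd : ∀ i : F, i ≠ 0 → ∃ x, lam (i * x) ≠ 0)
    {N : ℕ} (hN : 0 < N) (P₁ : Fin N → ℕ) [hP₁ : ∀ i, Fact (P₁ i).Prime] (P₂ : Fin 2 → ℕ) [hP₂ : ∀ i, Fact (P₂ i).Prime]
    (hinj : Function.Injective (Sum.elim P₁ P₂)) (hM1 : ∀ i, M ∣ P₁ i - 1) (hM2 : ∀ i, M ∣ P₂ i - 1)
    (hq1 : ∀ i, q ∣ P₁ i - 1) (hq2 : ∀ i, q ∣ P₂ i - 1) :
    ∃ th : F → A, (∀ i, IsIntegral ℤ (th i)) ∧
      (∀ σ : A ≃ₐ[ℚ] A, ∃ (m : ℕ) (x : F), ∀ i, σ (th i) = th ((h : F) ^ m * i + x)) ∧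
      (∃ (τ : A ≃ₐ[ℚ] A) (x : F), ∀ i, τ (th i) = th (((h⁻¹ : Fˣ) : F) * i + x)) ∧
      (∃ (σ : A ≃ₐ[ℚ] A) (x : F), x ≠ 0 ∧ ∀ i, σ (th i) = th (i + x)) ∧
      (∀ l, ∃ a : F, (∀ i, W (P₁ l) (th i - (if i = a then (Fintype.card F : A) else 0)) ≤ rho M (P₁ l)) ∧
        ∀ j : ZMod M, W (P₁ l) (th (a - (hp h j : F))) = rho M (P₁ l)) ∧
      (∃ a : F, ∀ i, th i ∈ Q A (P₂ 1) ∧
        W (P₂ 1) (th i - (if i = a then (Fintype.card F : A) else 0)) ≤ (P₂ 1 : ℝ)⁻¹) := by
  classical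
  have hM0 : M ≠ 0 := NeZero.ne M
  have hq0 : q ≠ 0 := hq.out.ne_zero
  have : NeZero q := ⟨hq0⟩
  have hchar : CharP F q := charP_of_injective_algebraMap (algebraMap (ZMod q) F).injective q
  have hcardF : ∀ (p : ℕ) [Fact p.Prime], q ∣ p - 1 → ¬ p ∣ Fintype.card F := by
    intro p hp hqp hd
    obtain ⟨nn, -, hcard⟩ := FiniteField.card F q
    rw [hcard] at hd
    exact not_dvd_of_pred p hqp (hp.out.dvd_of_dvd_pow hd)
  obtain ⟨ζM, hζM⟩ := HasEnoughRootsOfUnity.exists_primitiveRoot A M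
  obtain ⟨ζq, hζq⟩ := HasEnoughRootsOfUnity.exists_primitiveRoot A q
  obtain ⟨om, hom1, hom2, hom3, hom4, hom5⟩ := exists_cyc M hM hζM P₁ P₂ hinj hM1 hM2
  obtain ⟨C0, hC0⟩ := hom4 0
  set j0 : ZMod M := -C0 with hj0
  set P : Fin N ⊕ Fin 2 → ℕ := Sum.elim P₁ P₂ with hP
  have hPF : ∀ i, Fact (P i).Prime := by
    rintro (i | i)
    · exact hP₁ i
    · exact hP₂ i
  have hrq : ∀ i, q ∣ P i - 1 := by
    rintro (i | i)
    · exact hq1 i
    · exact hq2 i
  have hζqQ : ∀ i, ζq ∈ Q A (P i) := fun i => zeta_Q (P i) hζq hq0 (hrq i)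
  have hWom : ∀ (p : ℕ) [Fact p.Prime] j, W p (om j) ≤ 1 := fun p _ j => W_integral p (hom1 j)
  have hζqi : IsIntegral ℤ ζq := hζq.isIntegral (Nat.pos_of_ne_zero hq0)
  obtain ⟨cb, hcb⟩ := pol hζq P hinj hrq (Sum.elim (fun _ => 1) ![-(M : A)⁻¹, 0]) (by
      rintro (i | i)
      · exact one_mem _
      · fin_cases i
        · exact neg_mem (inv_mem (nat_Q _ M))
        · exact zero_mem _) (by
      rintro (i | i)
      · simp only [Sum.elim_inl]
        rw [W_one]
      · fin_cases i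
        · show W (P₂ 0) (-(M : A)⁻¹) ≤ 1
          rw [W_neg, W_nat_inv _ (not_dvd_of_pred (P₂ 0) (hM2 0))]
        · show W (P₂ 1) (0 : A) ≤ 1
          rw [W_zero]
          exact zero_le_one)
  obtain ⟨ca, hca⟩ := pol hζq P hinj hrq (Sum.elim (fun _ => -1) ![-1 - pv cb ζq * om j0, 0]) (by
      rintro (i | i)
      · exact neg_mem (one_mem _)
      · fin_cases i
        · exact sub_mem (neg_mem (one_mem _)) (mul_mem (sum_mem fun l _ => mul_mem (intCast_mem _ _)
            (pow_mem (hζqQ (Sum.inr 0)) _)) (hC0 j0).1)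
        · exact zero_mem _) (by
      rintro (i | i)
      · simp only [Sum.elim_inl]
        rw [W_neg, W_one]
      · fin_cases i
        · show W (P₂ 0) (-1 - pv cb ζq * om j0) ≤ 1
          apply W_integral
          exact (isIntegral_one.neg).sub ((pv_int cb hζqi).mul (hom1 j0))
        · show W (P₂ 1) (0 : A) ≤ 1
          rw [W_zero]
          exact zero_le_one)
  set X : (ZMod q)ˣ → A := fun t => ζq ^ ((t⁻¹ : (ZMod q)ˣ) : ZMod q).val with hX
  have hX1 : X 1 = ζq := by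
    rw [hX]
    simp only [inv_one, Units.val_one]
    exact val_one' hζq
  have hXi : ∀ t, IsIntegral ℤ (X t) := fun t => hζqi.pow _
  have hXne : ∀ i t, t ≠ 1 → W (P i) (pv ca (X t)) ≤ (P i : ℝ)⁻¹ ∧ W (P i) (pv cb (X t)) ≤ (P i : ℝ)⁻¹ := by
    intro i t ht
    have h3 : ((t⁻¹ : (ZMod q)ˣ) : ZMod q) ≠ 1 := by
      intro h
      apply ht
      have h3 : (t⁻¹ : (ZMod q)ˣ) = 1 := Units.ext h
      rw [← inv_inv t, h3, inv_one]
    exact ⟨(hca i).2 _ h3, (hcb i).2 _ h3⟩
  set al : (ZMod q)ˣ × ZMod M → A := fun t => 1 + pv ca (X t.1) + pv cb (X t.1) * om t.2 with hal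
  have hali : ∀ t, IsIntegral ℤ (al t) := fun t =>
    (isIntegral_one.add (pv_int ca (hXi t.1))).add ((pv_int cb (hXi t.1)).mul (hom1 t.2))
  -- the local conditions
  have hal_ne : ∀ i t, t.1 ≠ 1 → W (P i) (al t - 1) ≤ (P i : ℝ)⁻¹ := by
    intro i t ht
    obtain ⟨h3, h4⟩ := hXne i t.1 ht
    have e1 : al t - 1 = pv ca (X t.1) + pv cb (X t.1) * om t.2 := by
      rw [hal]
      simp only
      ring
    rw [e1]
    refine (W_add_le _ _ _).trans (max_le h3 ?_)
    rw [W_mul]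
    calc W (P i) (pv cb (X t.1)) * W (P i) (om t.2) ≤ (P i : ℝ)⁻¹ * 1 :=
          mul_le_mul h4 (hWom _ _) (W_nonneg _ _) (inv_p_pos (P i)).le
      _ = _ := mul_one _
  have hal_P : ∀ l, ∃ z : A, W (P₁ l) z = rho M (P₁ l) ∧
      ∀ j, W (P₁ l) (al (1, j) - 1 - ζM ^ j.val * z) ≤ rho M (P₁ l) ^ 2 := by
    intro l
    obtain ⟨z, hz1, hz2⟩ := hom3 l
    refine ⟨z, hz1, fun j => ?_⟩
    have h3 := (hca (Sum.inl l)).1
    have h4 := (hcb (Sum.inl l)).1
    simp only [Sum.elim_inl, sub_neg_eq_add] at h3 h4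
    have h3' : W (P₁ l) (pv ca ζq + 1) = (P₁ l : ℝ)⁻¹ := h3
    have h4' : W (P₁ l) (pv cb ζq - 1) = (P₁ l : ℝ)⁻¹ := h4
    have e1 : al (1, j) - 1 - ζM ^ j.val * z = (pv ca ζq + 1) + ((pv cb ζq - 1) * om j + (om j - 1 - ζM ^ j.val * z)) := by
      rw [hal]
      simp only
      rw [hX1]
      ring
    rw [e1]
    refine (W_add_le _ _ _).trans (max_le (h3'.le.trans (inv_le_rho_sq hM)) ((W_add_le _ _ _).trans (max_le ?_ (hz2 j))))
    rw [W_mul, h4']
    calc (P₁ l : ℝ)⁻¹ * W (P₁ l) (om j) ≤ (P₁ l : ℝ)⁻¹ * 1 :=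
          mul_le_mul_of_nonneg_left (hWom _ _) (inv_p_pos _).le
      _ = (P₁ l : ℝ)⁻¹ := mul_one _
      _ ≤ _ := inv_le_rho_sq hM
  have hal_q : W (P₂ 0) (al (1, j0)) = (P₂ 0 : ℝ)⁻¹ ∧ ∀ t, t ≠ (1, j0) → W (P₂ 0) (al t - 1) ≤ (P₂ 0 : ℝ)⁻¹ := by
    have h3 := (hca (Sum.inr 0)).1
    have h4 := (hcb (Sum.inr 0)).1
    have h3' : W (P₂ 0) (pv ca ζq - (-1 - pv cb ζq * om j0)) = (P₂ 0 : ℝ)⁻¹ := h3
    have h4' : W (P₂ 0) (pv cb ζq - -(M : A)⁻¹) = (P₂ 0 : ℝ)⁻¹ := h4
    constructor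
    · rw [← h3']
      congr 1
      rw [hal]
      simp only
      rw [hX1]
      ring
    · rintro ⟨t, j⟩ ht
      by_cases ht1 : t = 1
      · subst ht1
        have hj : j ≠ j0 := fun h => ht (by rw [h])
        have e1 : al (1, j) - 1 = (pv ca ζq - (-1 - pv cb ζq * om j0)) +
            ((-(pv cb ζq - -(M : A)⁻¹) * om j0 + (M : A)⁻¹ * (om j0 - M)) + pv cb ζq * om j) := by
          rw [hal]
          simp only
          rw [hX1]
          have hMA : (M : A) ≠ 0 := by exact_mod_cast hM0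
          field_simp
          ring
        have h5 := (hC0 j0).2
        rw [if_pos (by rw [hj0]; ring)] at h5
        have h6 := (hC0 j).2
        rw [if_neg (by
          intro h7
          apply hj
          rw [hj0]
          exact eq_neg_of_add_eq_zero_left h7), sub_zero] at h6
        rw [e1]
        refine (W_add_le _ _ _).trans (max_le h3'.le ((W_add_le _ _ _).trans (max_le ((W_add_le _ _ _).trans
          (max_le ?_ ?_)) ?_)))
        · rw [W_mul, W_neg, h4']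
          calc (P₂ 0 : ℝ)⁻¹ * W (P₂ 0) (om j0) ≤ (P₂ 0 : ℝ)⁻¹ * 1 :=
                mul_le_mul_of_nonneg_left (hWom _ _) (inv_p_pos _).le
            _ = (P₂ 0 : ℝ)⁻¹ := mul_one _
        · rw [W_mul, W_nat_inv _ (not_dvd_of_pred (P₂ 0) (hM2 0)), one_mul]
          exact h5
        · rw [W_mul]
          calc W (P₂ 0) (pv cb ζq) * W (P₂ 0) (om j) ≤ 1 * (P₂ 0 : ℝ)⁻¹ :=
                mul_le_mul (W_integral _ (pv_int cb hζqi)) h6 (W_nonneg _ _) zero_le_one
            _ = (P₂ 0 : ℝ)⁻¹ := one_mul _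
      · exact hal_ne (Sum.inr 0) (t, j) ht1
  have hal_r : ∀ t, W (P₂ 1) (al t - 1) ≤ (P₂ 1 : ℝ)⁻¹ := by
    rintro ⟨t, j⟩
    by_cases ht1 : t = 1
    · subst ht1
      have h3 := (hca (Sum.inr 1)).1
      have h4 := (hcb (Sum.inr 1)).1
      have h3' : W (P₂ 1) (pv ca ζq - 0) = (P₂ 1 : ℝ)⁻¹ := h3
      have h4' : W (P₂ 1) (pv cb ζq - 0) = (P₂ 1 : ℝ)⁻¹ := h4
      rw [sub_zero] at h3' h4'
      have e1 : al (1, j) - 1 = pv ca ζq + pv cb ζq * om j := by
        rw [hal]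
        simp only
        rw [hX1]
        ring
      rw [e1]
      refine (W_add_le _ _ _).trans (max_le h3'.le ?_)
      rw [W_mul, h4']
      calc (P₂ 1 : ℝ)⁻¹ * W (P₂ 1) (om j) ≤ (P₂ 1 : ℝ)⁻¹ * 1 :=
            mul_le_mul_of_nonneg_left (hWom _ _) (inv_p_pos _).le
        _ = (P₂ 1 : ℝ)⁻¹ := mul_one _
    · exact hal_ne (Sum.inr 1) (t, j) ht1
  have halne : ∀ t, al t ≠ 0 := by
    intro t h0
    have h3 := hal_r t
    rw [h0, zero_sub, W_neg, W_one] at h3
    exact absurd (inv_p_lt (P₂ 1)) (not_lt.2 h3)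
  -- the exponents
  choose x hx using fun l => exists_x (trivF hζq lam nd) hord hζM (P₁ l) (hq1 l) (hM1 l) (hcardF (P₁ l) (hq1 l))
  have hqP : ∀ l, q ≠ P₁ l := by
    intro l hl
    exact not_dvd_of_pred (P₁ l) (hq1 l) (by rw [hl])
  have hex : ∀ v : F, ∃ c : ℕ, ((c : ℕ) : ZMod q) = lam v ∧ ∀ l, ((P₁ l : ℕ) : ℤ) ∣ (c : ℤ) - (if v = x l then 1 else 0) := by
    intro v
    obtain ⟨c, hc⟩ := icrt (ι := Option (Fin N)) (fun o => o.elim q P₁) (by
        rintro (_ | l)
        · exact hq0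
        · exact (hP₁ l).out.ne_zero) (by
        rintro (_ | l) (_ | l') hne
        · exact absurd rfl hne
        · exact (Nat.coprime_primes hq.out (hP₁ l').out).2 (hqP l')
        · exact (Nat.coprime_primes (hP₁ l).out hq.out).2 (hqP l).symm
        · refine (Nat.coprime_primes (hP₁ l).out (hP₁ l').out).2 fun h3 => ?_
          have h4 : (Sum.inl l : Fin N ⊕ Fin 2) = Sum.inl l' := hinj h3
          exact hne (congrArg some (Sum.inl_injective h4)))
      (fun o => o.elim ((lam v).val : ℤ) (fun l => if v = x l then 1 else 0))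
    refine ⟨c, ?_, fun l => hc (some l)⟩
    have h3 := hc none
    simp only [Option.elim_none] at h3
    have h4 := (ZMod.intCast_zmod_eq_zero_iff_dvd _ q).2 h3
    push_cast at h4
    rw [ZMod.natCast_zmod_val, sub_eq_zero] at h4
    exact h4
  choose e he1 he2 using hex
  choose a ha using fun t => IsAlgClosed.exists_pow_nat_eq (al t) (Nat.pos_of_ne_zero hq0)
  set taU : (ZMod q)ˣ × ZMod M → Fˣ := fun t => Units.map (algebraMap (ZMod q) F : ZMod q →* F) t.1 * hp h (-t.2) with htaU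
  let k : KD A F ((ZMod q)ˣ × ZMod M) q :=
    { ζ := ζq
      hζ := hζq
      lam := lam
      nd := nd
      al := al
      a := a
      pow := ha
      ne := halne
      int := hali
      ta := fun t => (taU t : F)
      e := e
      he := he1 }
  have hact : ∀ (σ : A ≃ₐ[ℚ] A) (κ : ZMod M), (∀ j, σ (om j) = om (j + κ)) →
      ∃ y : F, ∀ i, σ (k.th i) = k.th ((hp h (-κ) : F) * i + y) := by
    intro σ κ hκ
    obtain ⟨s, hs⟩ := exists_s hζq σ
    set π : (ZMod q)ˣ × ZMod M ≃ (ZMod q)ˣ × ZMod M := Equiv.prodCongr (Equiv.mulRight s⁻¹) (Equiv.addRight κ) with hπd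
    have hπ : ∀ t, σ (k.al t) = k.al (π t) := by
      intro t
      show σ (al t) = al (t.1 * s⁻¹, t.2 + κ)
      rw [hal]
      simp only
      rw [map_add, map_add, map_mul, map_one, pv_map, pv_map, hκ, hX]
      simp only
      rw [map_pow, hs, zeta_mul hζq, mul_inv, inv_inv, Units.val_mul, mul_comm (s : ZMod q)]
    obtain ⟨cc, hcc⟩ := k.exists_c hπ
    set v : Fˣ := Units.map (algebraMap (ZMod q) F : ZMod q →* F) s * hp h κ with hv
    refine ⟨((v⁻¹ : Fˣ) : F) * ∑ t, (cc t : F) * k.ta t, fun i => ?_⟩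
    have h3 := k.act σ s v π cc hs hcc (by
      intro t
      show (taU t : F) = (taU (t.1 * s⁻¹, t.2 + κ) : F) * v
      rw [← Units.val_mul]
      congr 1
      rw [htaU, hv]
      simp only
      rw [map_mul, map_inv]
      have h4 : hp h (-t.2) = hp h (-(t.2 + κ)) * hp h κ := by
        rw [← hp_add hord]
        congr 1
        ring
      rw [h4]
      have h5 : ∀ a b c d : Fˣ, a * (c * d) = a * b⁻¹ * c * (b * d) := by
        intro a b c d
        rw [mul_comm b d, ← mul_assoc (a * b⁻¹ * c), mul_assoc (a * b⁻¹) c d, mul_comm (a * b⁻¹) (c * d), mul_assoc,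
          mul_assoc a, inv_mul_cancel, mul_one, mul_comm]
      exact h5 _ _ _ _) i
    rw [h3]
    congr 3
    have h6 : (algebraMap (ZMod q) F (s : ZMod q)) = ((Units.map (algebraMap (ZMod q) F : ZMod q →* F) s : Fˣ) : F) := rfl
    rw [h6, ← Units.val_mul]
    congr 1
    rw [hv, mul_inv, ← mul_assoc, mul_inv_cancel, one_mul]
    exact inv_eq_of_mul_eq_one_right (hp_neg hord κ)
  have hkch : ∀ y, k.ch y = (trivF hζq lam nd).ch y := fun y => rfl
  have hmulunit : ∀ j : ZMod M, (taU (1, j) : F) = (hp h (-j) : F) := by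
    intro j
    rw [htaU]
    simp
  refine ⟨k.th, k.th_int, ?_, ?_, ?_, ?_, ?_⟩
  · intro σ
    obtain ⟨κ, hκ⟩ := hom2 σ
    obtain ⟨y, hy⟩ := hact σ κ hκ
    exact ⟨(-κ).val, y, fun i => by rw [hy]; unfold hp; rw [Units.val_pow_eq_pow_val]⟩
  · obtain ⟨τ, hτ⟩ := hom5 ⟨⟨0, hN⟩⟩
    obtain ⟨y, hy⟩ := hact τ 1 hτ
    exact ⟨τ, y, fun i => by rw [hy, hp_neg_one hord hM]⟩
  · obtain ⟨σ, -, hσ⟩ := k.trans (P₂ 0) (hq2 0) (1, j0) hal_q.1 (fun t ht => lt_of_le_of_lt (hal_q.2 t ht) (inv_p_lt _))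
      (fun t => add_mem (add_mem (one_mem _) (sum_mem fun l _ => mul_mem (intCast_mem _ _)
        (pow_mem (pow_mem (hζqQ (Sum.inr 0)) _) _))) (mul_mem (sum_mem fun l _ => mul_mem (intCast_mem _ _)
        (pow_mem (pow_mem (hζqQ (Sum.inr 0)) _) _)) (hC0 t.2).1)) ∅ (by simp)
    exact ⟨σ, _, (taU (1, j0)).ne_zero, hσ⟩
  · intro l
    obtain ⟨z, hz1, hz2⟩ := hal_P l
    have hν0 := rho_pos M (P₁ l)
    have hν1 := rho_lt hM0 (P₁ l)
    have hν2 : rho M (P₁ l) ^ 2 ≤ rho M (P₁ l) := by nlinarith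
    have hν3 : rho M (P₁ l) ^ 2 < rho M (P₁ l) := by nlinarith
    have hinvν := inv_le_rho_sq (p := P₁ l) hM
    have hWal : ∀ t, W (P₁ l) (k.al t - 1) ≤ rho M (P₁ l) := by
      rintro ⟨t, j⟩
      by_cases ht : t = 1
      · subst ht
        have e1 : k.al (1, j) - 1 = (al (1, j) - 1 - ζM ^ j.val * z) + ζM ^ j.val * z := by
          show al (1, j) - 1 = _
          ring
        rw [e1]
        refine (W_add_le _ _ _).trans (max_le ((hz2 j).trans hν2) ?_)
        rw [W_mul, W_zeta _ hζM hM0, one_mul, hz1]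
      · exact (hal_ne (Sum.inl l) (t, j) ht).trans (hinvν.trans hν2)
    obtain ⟨C, hC⟩ := k.local_one (P₁ l) (not_dvd_of_pred (P₁ l) (hq1 l)) hν0.le hν1 hWal
    refine ⟨-C, ?_, ?_⟩
    · intro i
      have h3 := (hC i).1
      rwa [if_congr (add_eq_zero_iff_eq_neg) rfl rfl] at h3
    · intro j
      set i : F := -C - (hp h j : F) with hi
      have hiC : i + C = -(hp h j : F) := by rw [hi]; ring
      have h3 := (hC i).2
      rw [if_neg (by rw [hiC]; exact neg_ne_zero.2 (hp h j).ne_zero), sub_zero, hiC] at h3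
      -- the sum over the exponents
      have hG : ∀ j', W (P₁ l) (∑ u, k.ch (-(hp h j : F) * u) * k.e (u * k.ta (1, j')) -
          k.ch (-(hp h (j + j') : F) * x l)) ≤ (P₁ l : ℝ)⁻¹ := by
        intro j'
        have e1 : ∑ u, k.ch (-(hp h j : F) * u) * k.e (u * k.ta (1, j')) = ∑ v, k.ch (-(hp h (j + j') : F) * v) * e v := by
          symm
          refine Fintype.sum_equiv (Units.mulRight (hp h j')) _ _ fun v => ?_
          rw [Units.mulRight_apply]
          have e2 : k.e (v * (hp h j' : F) * k.ta (1, j')) = e v := by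
            show e (v * (hp h j' : F) * (taU (1, j') : F)) = e v
            rw [hmulunit, mul_assoc, ← Units.val_mul, hp_neg hord, Units.val_one, mul_one]
          rw [e2, hp_add hord, Units.val_mul]
          congr 2
          ring
        have e3 : k.ch (-(hp h (j + j') : F) * x l) = ∑ v, k.ch (-(hp h (j + j') : F) * v) * (if v = x l then 1 else 0) := by
          simp
        rw [e1, e3, ← Finset.sum_sub_distrib]
        apply W_sum_le _ _ _ _ (inv_p_pos _).le
        intro v _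
        rw [← mul_sub, W_mul, k.W_ch, one_mul]
        have h4 := W_int_lt (A := A) (P₁ l) (he2 v l)
        push_cast at h4
        exact h4
      have hGi : ∀ t, W (P₁ l) (∑ u, k.ch (-(hp h j : F) * u) * k.e (u * k.ta t)) ≤ 1 := by
        intro t
        apply W_sum_le _ _ _ _ zero_le_one
        intro u _
        rw [W_mul, k.W_ch, one_mul]
        have h4 := W_int_le (A := A) (P₁ l) (k.e (u * k.ta t) : ℤ)
        simpa using h4
      set S : A := ∑ j' : ZMod M, ζM ^ j'.val * k.ch (-(hp h (j + j') : F) * x l) with hS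
      have hmain : W (P₁ l) (∑ t, (k.al t - 1) * ∑ u, k.ch (-(hp h j : F) * u) * k.e (u * k.ta t) - z * S) ≤
          rho M (P₁ l) ^ 2 := by
        have e1 : z * S = ∑ t : (ZMod q)ˣ × ZMod M,
            (if t.1 = 1 then z * (ζM ^ t.2.val * k.ch (-(hp h (j + t.2) : F) * x l)) else 0) := by
          rw [Fintype.sum_prod_type, Finset.sum_eq_single 1]
          · simp only [if_true]
            rw [hS, Finset.mul_sum]
          · intro t _ ht
            simp [ht]
          · intro h4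
            exact absurd (Finset.mem_univ _) h4
        rw [e1, ← Finset.sum_sub_distrib]
        apply W_sum_le _ _ _ _ (pow_nonneg hν0.le 2)
        rintro ⟨t, j'⟩ _
        simp only
        by_cases ht : t = 1
        · subst ht
          rw [if_pos rfl]
          set G := ∑ u, k.ch (-(hp h j : F) * u) * k.e (u * k.ta (1, j')) with hGd
          have e2 : (k.al (1, j') - 1) * G - z * (ζM ^ j'.val * k.ch (-(hp h (j + j') : F) * x l)) =
              (al (1, j') - 1 - ζM ^ j'.val * z) * G + (z * ζM ^ j'.val) * (G - k.ch (-(hp h (j + j') : F) * x l)) := by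
            show (al (1, j') - 1) * G - _ = _
            ring
          rw [e2]
          refine (W_add_le _ _ _).trans (max_le ?_ ?_)
          · rw [W_mul]
            calc W (P₁ l) (al (1, j') - 1 - ζM ^ j'.val * z) * W (P₁ l) G ≤ rho M (P₁ l) ^ 2 * 1 :=
                  mul_le_mul (hz2 j') (hGi _) (W_nonneg _ _) (pow_nonneg hν0.le 2)
              _ = _ := mul_one _
          · rw [W_mul, W_mul, hz1, W_zeta _ hζM hM0, mul_one]
            calc rho M (P₁ l) * W (P₁ l) (G - k.ch (-(hp h (j + j') : F) * x l)) ≤ 1 * (P₁ l : ℝ)⁻¹ :=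
                  mul_le_mul hν1.le (hG j') (W_nonneg _ _) zero_le_one
              _ = (P₁ l : ℝ)⁻¹ := one_mul _
              _ ≤ _ := hinvν
        · rw [if_neg ht, sub_zero, W_mul]
          calc W (P₁ l) (k.al (t, j') - 1) * W (P₁ l) (∑ u, k.ch (-(hp h j : F) * u) * k.e (u * k.ta (t, j'))) ≤
                (P₁ l : ℝ)⁻¹ * 1 := mul_le_mul (hal_ne (Sum.inl l) (t, j') ht) (hGi _) (W_nonneg _ _) (inv_p_pos _).le
            _ = (P₁ l : ℝ)⁻¹ := mul_one _
            _ ≤ _ := hinvν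
      have hWS : W (P₁ l) S = 1 := by
        have e1 : ζM ^ j.val * S = ∑ j' : ZMod M, ζM ^ j'.val * (trivF hζq lam nd).ch (-(hp h j' : F) * x l) := by
          rw [hS, Finset.mul_sum]
          refine Fintype.sum_equiv (Equiv.addLeft j) _ _ fun j' => ?_
          rw [Equiv.coe_addLeft, ← mul_assoc]
          congr 1
          have h4 : ∀ y : ZMod M, (triv hζM).ch y = ζM ^ y.val := fun y => rfl
          rw [← h4, ← h4, ← h4, (triv hζM).ch_add]
        have h5 := hx l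
        rw [← e1, W_mul, W_zeta _ hζM hM0, one_mul] at h5
        exact h5
      have h6 : W (P₁ l) ((q : A) * k.th i - z * S) ≤ rho M (P₁ l) ^ 2 := by
        have e1 : (q : A) * k.th i - z * S = ((q : A) * k.th i -
            ∑ t, (k.al t - 1) * ∑ u, k.ch (-(hp h j : F) * u) * k.e (u * k.ta t)) +
            (∑ t, (k.al t - 1) * ∑ u, k.ch (-(hp h j : F) * u) * k.e (u * k.ta t) - z * S) := by ring
        rw [e1]
        exact (W_add_le _ _ _).trans (max_le h3 hmain)
      have h7 : W (P₁ l) (z * S) = rho M (P₁ l) := by rw [W_mul, hz1, hWS, mul_one]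
      have h8 : W (P₁ l) ((q : A) * k.th i) = rho M (P₁ l) := by
        rw [← h7]
        apply W_eq_of_sub_lt
        rw [h7]
        exact lt_of_le_of_lt h6 hν3
      have h9 : W (P₁ l) (q : A) = 1 := by
        have h10 := W_int_eq (A := A) (P₁ l) (z := (q : ℤ)) (by exact_mod_cast not_dvd_of_pred (P₁ l) (hq1 l))
        simpa using h10
      rw [W_mul, h9, one_mul] at h8
      exact h8
  · obtain ⟨C, hC⟩ := k.local_one (P₂ 1) (not_dvd_of_pred (P₂ 1) (hq2 1)) (inv_p_pos (P₂ 1)).le (inv_p_lt (P₂ 1)) hal_r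
    obtain ⟨C1, hC1⟩ := hom4 1
    refine ⟨-C, fun i => ⟨?_, ?_⟩⟩
    · exact k.th_Q (P₂ 1) (hq2 1) (fun t => add_mem (add_mem (one_mem _) (sum_mem fun l _ => mul_mem (intCast_mem _ _)
        (pow_mem (pow_mem (hζqQ (Sum.inr 1)) _) _))) (mul_mem (sum_mem fun l _ => mul_mem (intCast_mem _ _)
        (pow_mem (pow_mem (hζqQ (Sum.inr 1)) _) _)) (hC1 t.2).1)) (fun t => lt_of_le_of_lt (hal_r t) (inv_p_lt _)) i
    · have h3 := (hC i).1
      rwa [if_congr (add_eq_zero_iff_eq_neg) rfl rfl] at h3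

end

end Pool.Agent.H450.FR
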