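import Pool.Agent.H450.FR.Loc
import Pool.Agent.H450.GG.Rel

set_option autoImplicit false
set_option linter.unusedSectionVars false

namespace Pool.Agent.H450.FR

open Polynomial Pool.Agent.H450.GG Pool.Agent.H450.GW

/-- Data for the descent of Kummer extensions. -/
structure KD (A R T : Type) [Field A] [CharZero A] [CommRing R] [Fintype R] [Fintype T] (r : ℕ)
    [Algebra (ZMod r) R] where
  ζ : A
  hζ : IsPrimitiveRoot ζ r
  lam : R →ₗ[ZMod r] ZMod r
  nd : ∀ i : R, i ≠ 0 → ∃ x, lam (i * x) ≠ 0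
  al : T → A
  a : T → A
  pow : ∀ t, a t ^ r = al t
  ne : ∀ t, al t ≠ 0
  int : ∀ t, IsIntegral ℤ (al t)
  ta : T → R
  e : R → ℕ
  he : ∀ x, ((e x : ℕ) : ZMod r) = lam x

namespace KD

variable {A R T : Type} [Field A] [CharZero A] [CommRing R] [Fintype R] [DecidableEq R] [Fintype T] {r : ℕ}
  [NeZero r] [Algebra (ZMod r) R] (k : KD A R T r)

/-- the additive character -/
def ch (x : R) : A := k.ζ ^ (k.lam x).val

theorem ch_of {m : ℕ} {x : R} (h : ((m : ℕ) : ZMod r) = k.lam x) : k.ζ ^ m = k.ch x := by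
  unfold ch
  rw [← h, ZMod.val_natCast]
  exact pow_eq_pow_mod m k.hζ.pow_eq_one

theorem ch_add (x y : R) : k.ch (x + y) = k.ch x * k.ch y := by
  unfold ch
  rw [← pow_add]
  symm
  apply k.ch_of
  push_cast
  rw [ZMod.natCast_zmod_val, ZMod.natCast_zmod_val, map_add]

theorem ch_zero : k.ch 0 = 1 := by
  unfold ch
  rw [map_zero, ZMod.val_zero, pow_zero]

theorem ch_ne {x : R} (h : k.lam x ≠ 0) : k.ch x ≠ 1 := by
  unfold ch
  apply k.hζ.pow_ne_one_of_pos_of_lt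
  · rw [Ne, ZMod.val_eq_zero]
    exact h
  · exact ZMod.val_lt _

theorem orth (i : R) : ∑ x, k.ch (i * x) = if i = 0 then (Fintype.card R : A) else 0 := by
  split_ifs with h
  · subst h
    simp [k.ch_zero]
  · obtain ⟨x0, hx0⟩ := k.nd i h
    have h1 := k.ch_ne hx0
    have h2 : ∑ x, k.ch (i * x) = k.ch (i * x0) * ∑ x, k.ch (i * x) := by
      rw [Finset.mul_sum]
      symm
      refine Fintype.sum_equiv (Equiv.addLeft x0) _ _ fun x => ?_
      rw [Equiv.coe_addLeft, mul_add, k.ch_add]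
    have h3 : (k.ch (i * x0) - 1) * ∑ x, k.ch (i * x) = 0 := by linear_combination -h2
    rcases mul_eq_zero.1 h3 with h4 | h4
    · exact absurd (sub_eq_zero.1 h4) h1
    · exact h4

theorem sig_ch {σ : A ≃ₐ[ℚ] A} {s : ZMod r} (h : σ k.ζ = k.ζ ^ s.val) (x : R) : σ (k.ch x) = k.ch (s • x) := by
  unfold ch
  rw [map_pow, h, ← pow_mul]
  apply k.ch_of
  push_cast
  rw [ZMod.natCast_zmod_val, ZMod.natCast_zmod_val, map_smul, smul_eq_mul]

/-- the products of the radicals -/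
def y (u : R) : A := ∏ t, k.a t ^ k.e (u * k.ta t)

/-- the descended elements -/
def th (i : R) : A := ∑ u, k.ch (i * u) * k.y u

theorem a_ne (t : T) : k.a t ≠ 0 := by
  intro h
  have h1 := k.pow t
  rw [h, zero_pow (NeZero.ne r)] at h1
  exact k.ne t h1.symm

theorem act (σ : A ≃ₐ[ℚ] A) (s : (ZMod r)ˣ) (v : Rˣ) (π : T ≃ T) (c : T → ℕ) (h1 : σ k.ζ = k.ζ ^ (s : ZMod r).val)
    (h2 : ∀ t, σ (k.a t) = k.ζ ^ c t * k.a (π t)) (h3 : ∀ t, k.ta t = k.ta (π t) * v) (i : R) :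
    σ (k.th i) = k.th (algebraMap (ZMod r) R s * ((v⁻¹ : Rˣ) : R) * i + ((v⁻¹ : Rˣ) : R) * ∑ t, (c t : R) * k.ta t) := by
  set C : R := ∑ t, (c t : R) * k.ta t with hC
  have hy : ∀ u, σ (k.y u) = k.ch (u * C) * k.y (u * v) := by
    intro u
    unfold y
    rw [map_prod]
    have e1 : ∀ t, σ (k.a t ^ k.e (u * k.ta t)) = k.ζ ^ (c t * k.e (u * k.ta t)) * k.a (π t) ^ k.e (u * v * k.ta (π t)) := by
      intro t
      rw [map_pow, h2, mul_pow, ← pow_mul]
      congr 3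
      rw [h3 t]
      ring
    rw [Finset.prod_congr rfl fun t _ => e1 t, Finset.prod_mul_distrib, Finset.prod_pow_eq_pow_sum]
    congr 1
    · apply k.ch_of
      push_cast
      rw [hC, Finset.mul_sum, map_sum]
      refine Finset.sum_congr rfl fun t _ => ?_
      rw [k.he]
      have e2 : u * ((c t : R) * k.ta t) = (c t : ZMod r) • (u * k.ta t) := by
        rw [Algebra.smul_def, map_natCast]
        ring
      rw [e2, map_smul, smul_eq_mul]
    · exact Equiv.prod_comp π (fun t => k.a t ^ k.e (u * v * k.ta t))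
  unfold th
  rw [map_sum]
  refine Fintype.sum_equiv (Units.mulRight v) _ _ fun u => ?_
  rw [map_mul, k.sig_ch h1, hy, ← mul_assoc, ← k.ch_add, Units.mulRight_apply]
  congr 2
  have e3 : (v : R) * ((v⁻¹ : Rˣ) : R) = 1 := Units.mul_inv v
  rw [Algebra.smul_def]
  linear_combination (-(algebraMap (ZMod r) R s * i * u) - u * C) * e3

theorem exists_c {σ : A ≃ₐ[ℚ] A} {π : T ≃ T} (h : ∀ t, σ (k.al t) = k.al (π t)) :
    ∃ c : T → ℕ, ∀ t, σ (k.a t) = k.ζ ^ c t * k.a (π t) := by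
  have h1 : ∀ t, ∃ c : ℕ, σ (k.a t) = k.ζ ^ c * k.a (π t) := by
    intro t
    obtain ⟨i, -, hi⟩ := k.hζ.eq_pow_of_pow_eq_one (ξ := σ (k.a t) / k.a (π t)) (by
      rw [div_pow, ← map_pow, k.pow, k.pow, h, div_self (k.ne _)])
    exact ⟨i, by rw [hi, div_mul_cancel₀ _ (k.a_ne _)]⟩
  choose c hc using h1
  exact ⟨c, hc⟩

theorem a_int (t : T) : IsIntegral ℤ (k.a t) := by
  apply IsIntegral.of_pow (Nat.pos_of_ne_zero (NeZero.ne r))
  rw [k.pow]
  exact k.int t

theorem ζ_int : IsIntegral ℤ k.ζ := k.hζ.isIntegral (Nat.pos_of_ne_zero (NeZero.ne r))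

theorem y_int (u : R) : IsIntegral ℤ (k.y u) := IsIntegral.prod _ fun t _ => (k.a_int t).pow _

theorem th_int (i : R) : IsIntegral ℤ (k.th i) :=
  IsIntegral.sum _ fun u _ => (k.ζ_int.pow _).mul (k.y_int u)

section loc

variable [Algebra.IsAlgebraic ℚ A] [IsAlgClosed A] (p : ℕ) [Fact p.Prime]

theorem W_ch (x : R) : W p (k.ch x) = 1 := W_zeta p k.hζ (NeZero.ne r) _

/-- the value when the radicands are near `1` -/
theorem local_one (hpr : ¬ p ∣ r) {ν : ℝ} (hν0 : 0 ≤ ν) (hν : ν < 1) (h : ∀ t, W p (k.al t - 1) ≤ ν) :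
    ∃ C : R, ∀ i, W p (k.th i - (if i + C = 0 then (Fintype.card R : A) else 0)) ≤ ν ∧
      W p (r * (k.th i - (if i + C = 0 then (Fintype.card R : A) else 0)) -
        ∑ t, (k.al t - 1) * ∑ u, k.ch ((i + C) * u) * k.e (u * k.ta t)) ≤ ν ^ 2 := by
  choose m ρ hm hρ1 hρ2 using fun t => W_root p k.hζ (NeZero.ne r) hpr (lt_of_le_of_lt (h t) hν) (k.pow t)
  set C : R := ∑ t, (m t : R) * k.ta t with hC
  refine ⟨C, fun i => ?_⟩
  set Y : R → A := fun u => ∏ t, ρ t ^ k.e (u * k.ta t) with hY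
  have hy : ∀ u, k.y u = k.ch (u * C) * Y u := by
    intro u
    unfold y
    rw [hY]
    have e1 : ∀ t, k.a t ^ k.e (u * k.ta t) = k.ζ ^ (m t * k.e (u * k.ta t)) * ρ t ^ k.e (u * k.ta t) := by
      intro t
      conv_lhs => rw [hm t]
      rw [mul_pow, ← pow_mul]
    rw [Finset.prod_congr rfl fun t _ => e1 t, Finset.prod_mul_distrib, Finset.prod_pow_eq_pow_sum]
    congr 1
    apply k.ch_of
    push_cast
    rw [hC, Finset.mul_sum, map_sum]
    refine Finset.sum_congr rfl fun t _ => ?_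
    rw [k.he]
    have e2 : u * ((m t : R) * k.ta t) = (m t : ZMod r) • (u * k.ta t) := by
      rw [Algebra.smul_def, map_natCast]
      ring
    rw [e2, map_smul, smul_eq_mul]
  have hth : k.th i = ∑ u, k.ch ((i + C) * u) * Y u := by
    unfold th
    refine Finset.sum_congr rfl fun u _ => ?_
    rw [hy, ← mul_assoc, ← k.ch_add]
    congr 2
    ring
  have hexp : ∀ u, W p (Y u - 1) ≤ ν ∧ W p (Y u - 1 - ∑ t, (k.e (u * k.ta t) : A) * (ρ t - 1)) ≤ ν ^ 2 := by
    intro u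
    exact prod_pow_first p Finset.univ ρ (fun t => k.e (u * k.ta t)) hν0 (fun t _ => by rw [hρ2]; exact h t) hν.le
  have hdiff : k.th i - (if i + C = 0 then (Fintype.card R : A) else 0) = ∑ u, k.ch ((i + C) * u) * (Y u - 1) := by
    rw [hth, ← k.orth, ← Finset.sum_sub_distrib]
    exact Finset.sum_congr rfl fun u _ => by ring
  constructor
  · rw [hdiff]
    apply W_sum_le p _ _ _ hν0
    intro u _
    rw [W_mul, k.W_ch, one_mul]
    exact (hexp u).1
  · have h5 : (r : A) * (k.th i - (if i + C = 0 then (Fintype.card R : A) else 0)) -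
        ∑ t, (k.al t - 1) * ∑ u, k.ch ((i + C) * u) * k.e (u * k.ta t) =
        ∑ u, k.ch ((i + C) * u) * (r * (Y u - 1 - ∑ t, (k.e (u * k.ta t) : A) * (ρ t - 1)) -
          ∑ t, (k.e (u * k.ta t) : A) * (k.al t - 1 - r * (ρ t - 1))) := by
      have h6 : ∑ t, (k.al t - 1) * ∑ u, k.ch ((i + C) * u) * k.e (u * k.ta t) =
          ∑ u, k.ch ((i + C) * u) * ∑ t, (k.e (u * k.ta t) : A) * (k.al t - 1) := by
        simp_rw [Finset.mul_sum]
        rw [Finset.sum_comm]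
        refine Finset.sum_congr rfl fun u _ => Finset.sum_congr rfl fun t _ => ?_
        ring
      rw [hdiff, h6, Finset.mul_sum, ← Finset.sum_sub_distrib]
      refine Finset.sum_congr rfl fun u _ => ?_
      have h7 : ∑ t, (k.e (u * k.ta t) : A) * (k.al t - 1 - r * (ρ t - 1)) =
          ∑ t, (k.e (u * k.ta t) : A) * (k.al t - 1) - r * ∑ t, (k.e (u * k.ta t) : A) * (ρ t - 1) := by
        rw [Finset.mul_sum, ← Finset.sum_sub_distrib]
        refine Finset.sum_congr rfl fun t _ => ?_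
        ring
      rw [h7]
      ring
    rw [h5]
    apply W_sum_le p _ _ _ (pow_nonneg hν0 2)
    intro u _
    rw [W_mul, k.W_ch, one_mul]
    refine (W_sub_le p _ _).trans (max_le ?_ ?_)
    · rw [W_mul]
      calc W p (r : A) * W p (Y u - 1 - ∑ t, (k.e (u * k.ta t) : A) * (ρ t - 1)) ≤ 1 * ν ^ 2 := by
            refine mul_le_mul ?_ (hexp u).2 (W_nonneg p _) zero_le_one
            have := W_int_le (A := A) p (r : ℤ)
            simpa using this
        _ = ν ^ 2 := one_mul _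
    · apply W_sum_le p _ _ _ (pow_nonneg hν0 2)
      intro t _
      have h8 := pow_first p (ρ := ρ t) (ν := ν) (by rw [hρ2]; exact h t) hν.le r
      rw [hρ1] at h8
      rw [W_mul]
      calc W p ((k.e (u * k.ta t) : ℕ) : A) * W p (k.al t - 1 - r * (ρ t - 1)) ≤ 1 * ν ^ 2 := by
            refine mul_le_mul ?_ h8 (W_nonneg p _) zero_le_one
            have := W_int_le (A := A) p (k.e (u * k.ta t) : ℤ)
            simpa using this
        _ = ν ^ 2 := one_mul _

/-- rationality of the radicals -/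
theorem a_Q (hr : r ∣ p - 1) {t : T} (hQ : k.al t ∈ Q A p) (h : W p (k.al t - 1) < 1) : k.a t ∈ Q A p :=
  root_Q p k.hζ (NeZero.ne r) hr hQ h (k.pow t)

theorem th_Q (hr : r ∣ p - 1) (hQ : ∀ t, k.al t ∈ Q A p) (h : ∀ t, W p (k.al t - 1) < 1) (i : R) : k.th i ∈ Q A p := by
  unfold th
  apply sum_mem
  intro u _
  apply mul_mem
  · exact pow_mem (zeta_Q p k.hζ (NeZero.ne r) hr) _
  · exact prod_mem fun t _ => pow_mem (k.a_Q p hr (hQ t) (h t)) _

/-- translations -/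
theorem trans (hr : r ∣ p - 1) (t0 : T) (h0 : W p (k.al t0) = (p : ℝ)⁻¹) (h : ∀ t, t ≠ t0 → W p (k.al t - 1) < 1)
    (hQ : ∀ t, k.al t ∈ Q A p) (S : Set A) (hS : ∀ x ∈ S, x ∈ Q A p) :
    ∃ σ : A ≃ₐ[ℚ] A, (∀ x ∈ S, σ x = x) ∧ ∀ i, σ (k.th i) = k.th (i + k.ta t0) := by
  classical
  have hζQ := zeta_Q p k.hζ (NeZero.ne r) hr
  set U : Set A := S ∪ ({k.ζ} ∪ (Set.range k.al ∪ {x | ∃ t, t ≠ t0 ∧ x = k.a t})) with hU
  have hUQ : IntermediateField.adjoin ℚ U ≤ Q A p := by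
    rw [IntermediateField.adjoin_le_iff]
    rintro x (hx | hx | ⟨t, rfl⟩ | ⟨t, ht, rfl⟩)
    · exact hS x hx
    · rw [Set.mem_singleton_iff] at hx
      rw [hx]
      exact hζQ
    · exact hQ t
    · exact k.a_Q p hr (hQ t) (h t ht)
  have hmemU : ∀ x ∈ U, x ∈ IntermediateField.adjoin ℚ U := fun x hx => IntermediateField.subset_adjoin _ _ hx
  let Rt : Finset A := Finset.univ.image (fun s : Fin r => k.ζ ^ (s : ℕ) * k.a t0)
  have hRcard : Rt.card = r := by
    rw [Finset.card_image_of_injective, Finset.card_univ, Fintype.card_fin]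
    intro s t hst
    exact Fin.ext (k.hζ.pow_inj s.2 t.2 (mul_right_cancel₀ (k.a_ne t0) hst))
  have hmem : ∀ s : ℕ, k.ζ ^ s * k.a t0 ∈ Rt := by
    intro s
    rw [Finset.mem_image]
    refine ⟨⟨s % r, Nat.mod_lt _ (Nat.pos_of_ne_zero (NeZero.ne r))⟩, Finset.mem_univ _, ?_⟩
    simp only
    rw [← pow_eq_pow_mod s k.hζ.pow_eq_one]
  obtain ⟨σ, hσ1, hσ2⟩ := trans_of_val p (IntermediateField.adjoin ℚ U) hUQ Rt (by rw [hRcard]; exact NeZero.ne r)
    (by
      intro x hx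
      obtain ⟨s, -, rfl⟩ := Finset.mem_image.1 hx
      rw [hRcard, W_mul, W_zeta p k.hζ (NeZero.ne r), one_mul, ← W_pow, k.pow, h0])
    (k.a t0) (by have := hmem 0; rwa [pow_zero, one_mul] at this)
    (by
      intro σ hσ
      obtain ⟨i, -, hi⟩ := k.hζ.eq_pow_of_pow_eq_one (ξ := σ (k.a t0) / k.a t0) (by
        rw [div_pow, ← map_pow, k.pow, hσ _ (hmemU _ (Or.inr (Or.inr (Or.inl ⟨t0, rfl⟩)))), div_self (k.ne _)])
      have h3 : σ (k.a t0) = k.ζ ^ i * k.a t0 := by rw [hi, div_mul_cancel₀ _ (k.a_ne _)]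
      rw [h3]
      exact hmem i)
    (k.ζ ^ 1 * k.a t0) (hmem 1)
  refine ⟨σ, fun x hx => hσ1 x (hmemU x (Or.inl hx)), fun i => ?_⟩
  have hζ1 : σ k.ζ = k.ζ := hσ1 _ (hmemU _ (Or.inr (Or.inl rfl)))
  have h5 := k.act σ 1 1 (Equiv.refl T) (fun t => if t = t0 then 1 else 0) (by
      rw [hζ1, Units.val_one]
      have h6 : k.ζ ^ 1 = k.ζ ^ (1 : ZMod r).val := by
        rw [ZMod.val_one_eq_one_mod]
        exact pow_eq_pow_mod 1 k.hζ.pow_eq_one
      rwa [pow_one] at h6)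
    (by
      intro t
      show σ (k.a t) = _
      by_cases ht : t = t0
      · subst ht
        rw [if_pos rfl]
        exact hσ2
      · rw [if_neg ht, pow_zero, one_mul]
        exact hσ1 _ (hmemU _ (Or.inr (Or.inr (Or.inr ⟨t, ht, rfl⟩)))))
    (by intro t; simp) i
  rw [h5]
  congr 1
  simp

/-- the ramified case -/
theorem W_y (t0 : T) {ν : ℝ} (h0 : W p (k.a t0) = ν) (h : ∀ t, t ≠ t0 → W p (k.al t) = 1) (u : R) :
    W p (k.y u) = ν ^ k.e (u * k.ta t0) := by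
  classical
  unfold y
  rw [W_prod, ← Finset.mul_prod_erase _ _ (Finset.mem_univ t0), W_pow, h0, Finset.prod_eq_one, mul_one]
  intro t ht
  have h1 := h t (Finset.ne_of_mem_erase ht)
  rw [← k.pow, W_pow] at h1
  rw [W_pow, (pow_eq_one_iff_of_nonneg (W_nonneg p _) (NeZero.ne r)).1 h1, one_pow]

end loc

end KD

end Pool.Agent.H450.FR
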