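import Pool.Agent.H450.GW.WLoc

set_option autoImplicit false
set_option linter.unusedSectionVars false

namespace Pool.Agent.H450.FR

open Polynomial Pool.Agent.H450.GG Pool.Agent.H450.GW

section
variable {A : Type} [Field A] [CharZero A] [Algebra.IsAlgebraic ℚ A] [IsAlgClosed A]
variable (p : ℕ) [Fact p.Prime]

/-- restriction of the automorphisms of the algebraic closure of `ℚ_p` -/
theorem restr (τ : PadicAlgCl p ≃ₐ[ℚ_[p]] PadicAlgCl p) :
    ∃ σ : A ≃ₐ[ℚ] A, ∀ x, psi p (σ x) = τ (psi p x) := by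
  let _ : Algebra A (PadicAlgCl p) := (psi (A := A) p).toRingHom.toAlgebra
  have h1 : IsScalarTower ℚ A (PadicAlgCl p) := IsScalarTower.of_algebraMap_eq fun q => ((psi (A := A) p).commutes q).symm
  have hn : Normal ℚ A := normal_A (A := A)
  refine ⟨(τ.restrictScalars ℚ).restrictNormal A, fun x => ?_⟩
  exact (τ.restrictScalars ℚ).restrictNormal_commutes A x

/-- The elements of `ℚ_p` are those fixed by the decomposition group. -/
theorem mem_Q_of_fixed {x : A}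
    (h : ∀ σ : A ≃ₐ[ℚ] A, (∀ z, W p (σ z) = W p z) → (∀ z ∈ Q A p, σ z = z) → σ x = x) : x ∈ Q A p := by
  rw [mem_Q]
  have h1 : psi p x ∈ (⊥ : IntermediateField ℚ_[p] (PadicAlgCl p)) := by
    rw [InfiniteGalois.mem_bot_iff_fixed]
    intro τ
    obtain ⟨σ, hσ⟩ := restr (A := A) p τ
    rw [← hσ]
    congr 1
    apply h σ
    · intro z
      unfold W
      rw [hσ]
      exact (spectralNorm_eq_of_equiv τ _).symm
    · intro z hz
      obtain ⟨y, hy⟩ := (mem_Q p).1 hz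
      apply (psi (A := A) p).injective
      show psi p (σ z) = psi p z
      rw [hσ, ← hy, AlgEquiv.commutes]
  rw [IntermediateField.mem_bot] at h1
  exact h1

/-- approximation by integers -/
theorem int_approx {x : A} (hx : x ∈ Q A p) (h1 : W p x ≤ 1) : ∃ n : ℤ, W p (x - n) ≤ (p : ℝ)⁻¹ := by
  obtain ⟨y, hy⟩ := (mem_Q p).1 hx
  have h2 : ‖y‖ ≤ 1 := by
    rw [← PadicAlgCl.norm_extends p y, hy]
    exact h1
  obtain ⟨yy, hyy⟩ : ∃ yy : ℤ_[p], (yy : ℚ_[p]) = y := ⟨⟨y, h2⟩, rfl⟩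
  have h3 := PadicInt.norm_sub_zmodRepr_lt_one (p := p) yy
  set n := PadicInt.zmodRepr yy with hn
  refine ⟨n, ?_⟩
  have h4 : W p (x - ((n : ℕ) : ℤ)) = ‖yy - n‖ := by
    have h6 : ‖yy - n‖ = ‖y - (n : ℚ_[p])‖ := by
      rw [PadicInt.norm_def]
      push_cast
      rw [hyy]
    rw [h6, ← PadicAlgCl.norm_extends p, map_sub, map_natCast, hy]
    unfold W
    rw [map_sub]
    simp
  rw [h4]
  have h5 := (PadicInt.norm_lt_one_iff_dvd _).1 h3
  obtain ⟨t, ht⟩ := h5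
  rw [ht, norm_mul, PadicInt.norm_p]
  have h6 := PadicInt.norm_le_one t
  have h7 := inv_p_pos p
  nlinarith

theorem le_inv_p {x : A} (hx : x ∈ Q A p) (h : W p x < 1) : W p x ≤ (p : ℝ)⁻¹ := by
  by_cases h0 : x = 0
  · rw [h0, W_zero]
    exact (inv_p_pos p).le
  · obtain ⟨n, hn⟩ := W_Q p hx h0
    have hp1 : (1 : ℝ) < p := by exact_mod_cast (Fact.out : p.Prime).one_lt
    rw [hn] at h ⊢
    have h1 : n < 0 := by
      by_contra hcon
      push Not at hcon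
      exact absurd h (not_lt.2 (one_le_zpow₀ hp1.le hcon))
    rw [← zpow_neg_one]
    exact zpow_le_zpow_right₀ hp1.le (by omega)

theorem not_dvd_of_pred {b : ℕ} (h : b ∣ p - 1) : ¬ p ∣ b := by
  intro hd
  have h0 := (Fact.out : p.Prime).one_lt
  have h1 := Nat.le_of_dvd (by omega) (hd.trans h)
  omega

variable {b : ℕ} {ζ : A}

/-- A root of unity is near an integer. -/
theorem zeta_near (hζ : IsPrimitiveRoot ζ b) (hb : b ≠ 0) (h : b ∣ p - 1) : ∃ m : ℤ, W p (ζ - m) < 1 := by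
  classical
  obtain ⟨z, hz⟩ := exists_order p b h
  have h1 : ∀ m : Fin b, ∃ s : Fin b, W p (ζ ^ (s : ℕ) * 1 - ((z ^ (m : ℕ) : ℤ) : A)) < 1 := by
    intro m
    apply near_exists p hζ hb
    have h2 : (p : ℤ) ∣ (z ^ (m : ℕ)) ^ b - 1 := by
      have h3 : (z ^ (m : ℕ)) ^ b - 1 = (z ^ b) ^ (m : ℕ) - 1 ^ (m : ℕ) := by
        rw [← pow_mul, mul_comm, pow_mul, one_pow]
      rw [h3]
      exact (order_dvd hz).trans (sub_dvd_pow_sub_pow _ _ _)
    have h4 := W_int_lt (A := A) p h2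
    push_cast at h4 ⊢
    rw [one_pow]
    exact lt_of_le_of_lt h4 (inv_p_lt p)
  choose s hs using h1
  have hinj : Function.Injective s := by
    intro m m' hmm
    by_contra hne
    have h1 : W p (((z ^ (m : ℕ) - z ^ (m' : ℕ) : ℤ)) : A) < 1 := by
      have h2 : (((z ^ (m : ℕ) - z ^ (m' : ℕ) : ℤ)) : A) = (ζ ^ ((s m' : Fin b) : ℕ) * 1 - ((z ^ (m' : ℕ) : ℤ) : A)) -
          (ζ ^ ((s m : Fin b) : ℕ) * 1 - ((z ^ (m : ℕ) : ℤ) : A)) := by
        rw [hmm]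
        push_cast
        ring
      rw [h2]
      exact lt_of_le_of_lt (W_sub_le p _ _) (max_lt (hs m') (hs m))
    rw [W_int_eq p (order_ne hz m.2 m'.2 (fun h => hne (Fin.ext h)))] at h1
    exact lt_irrefl _ h1
  have hsurj := Finite.surjective_of_injective hinj
  rcases Nat.lt_or_ge 1 b with hb1 | hb1
  · obtain ⟨m, hm⟩ := hsurj ⟨1, hb1⟩
    refine ⟨z ^ (m : ℕ), ?_⟩
    have := hs m
    rw [hm] at this
    simpa using this
  · have hb1' : b = 1 := by omega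
    subst hb1'
    have h2 : ζ = 1 := by simpa using hζ.pow_eq_one
    exact ⟨1, by rw [h2]; simp [W_zero]⟩

theorem zeta_Q (hζ : IsPrimitiveRoot ζ b) (hb : b ≠ 0) (h : b ∣ p - 1) : ζ ∈ Q A p := by
  apply mem_Q_of_fixed
  intro σ hσ hQ
  obtain ⟨m, hm⟩ := zeta_near p hζ hb h
  have : NeZero b := ⟨hb⟩
  obtain ⟨i, hi, h2⟩ := hζ.eq_pow_of_pow_eq_one (ξ := σ ζ) (by rw [← map_pow, hζ.pow_eq_one, map_one])
  have h3 : W p (σ ζ - m) < 1 := by
    have : σ ζ - m = σ (ζ - m) := by rw [map_sub, map_intCast]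
    rw [this, hσ]
    exact hm
  rw [← h2] at h3 ⊢
  by_contra hne
  have hb1 : 1 < b := by
    by_contra hcon
    have hb1' : b = 1 := by omega
    subst hb1'
    have h2 : ζ = 1 := by simpa using hζ.pow_eq_one
    rw [h2, one_pow] at hne
    exact hne rfl
  have h4 := W_zeta_sub p hζ (not_dvd_of_pred p h) (s := ⟨i, hi⟩) (t := ⟨1, hb1⟩) (fun h => hne (by
    have h5 := congrArg Fin.val h
    simp only at h5
    rw [h5, pow_one]))
  have h5 : ζ ^ i - ζ ^ 1 = (ζ ^ i - m) - (ζ - m) := by ring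
  simp only at h4
  rw [h5] at h4
  have h6 := W_sub_le p (ζ ^ i - m) (ζ - m)
  rw [h4] at h6
  exact absurd (lt_of_le_of_lt h6 (max_lt h3 hm)) (lt_irrefl _)

/-- The `b`-th roots of an element near `1`. -/
theorem W_root (hζ : IsPrimitiveRoot ζ b) (hb : b ≠ 0) (hpb : ¬ p ∣ b) {x y : A} (h1 : W p (x - 1) < 1) (hy : y ^ b = x) :
    ∃ (m : ℕ) (ρ : A), y = ζ ^ m * ρ ∧ ρ ^ b = x ∧ W p (ρ - 1) = W p (x - 1) := by
  have hWx : W p x = 1 := by
    have h2 : x = 1 + (x - 1) := by ring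
    rw [h2, W_one_add p h1]
  have hWy : W p y = 1 := by
    rw [← hy, W_pow] at hWx
    exact (pow_eq_one_iff_of_nonneg (W_nonneg p y) hb).1 hWx
  have h2 : W p ((1 : A) ^ b - y ^ b) < 1 := by
    rw [one_pow, hy, W_sub_comm]
    exact h1
  obtain ⟨s, hs⟩ := near_exists p hζ hb h2
  refine ⟨b - s, ζ ^ (s : ℕ) * y, ?_, ?_, ?_⟩
  · rw [← mul_assoc, ← pow_add, Nat.sub_add_cancel s.2.le, hζ.pow_eq_one, one_mul]
  · rw [mul_pow, ← pow_mul, mul_comm (s : ℕ), pow_mul, hζ.pow_eq_one, one_pow, one_mul, hy]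
  · rw [near_eq p hζ hb hpb hWy hs, one_pow, hy, W_sub_comm]

theorem root_Q (hζ : IsPrimitiveRoot ζ b) (hb : b ≠ 0) (h : b ∣ p - 1) {x y : A} (hx : x ∈ Q A p)
    (h1 : W p (x - 1) < 1) (hy : y ^ b = x) : y ∈ Q A p := by
  have hζQ := zeta_Q p hζ hb h
  have hpb := not_dvd_of_pred p h
  obtain ⟨m, ρ, hyρ, hρx, hρ⟩ := W_root p hζ hb hpb h1 hy
  have hρ1 : W p (ρ - 1) < 1 := by rw [hρ]; exact h1
  have hWρ : W p ρ = 1 := by
    have h2 : ρ = 1 + (ρ - 1) := by ring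
    rw [h2, W_one_add p hρ1]
  have hρ0 : ρ ≠ 0 := by
    rintro rfl
    rw [W_zero] at hWρ
    exact zero_ne_one hWρ
  have hρQ : ρ ∈ Q A p := by
    apply mem_Q_of_fixed
    intro σ hσ hQ
    have : NeZero b := ⟨hb⟩
    obtain ⟨i, hi, h3⟩ := hζ.eq_pow_of_pow_eq_one (ξ := σ ρ / ρ) (by
      rw [div_pow, ← map_pow, hρx, hQ x hx, div_self]
      rw [← hρx]
      exact pow_ne_zero _ hρ0)
    have h4 : σ ρ = ζ ^ i * ρ := by rw [h3, div_mul_cancel₀ _ hρ0]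
    have h5 : W p (σ ρ - 1) < 1 := by
      have h6 : σ ρ - 1 = σ (ρ - 1) := by rw [map_sub, map_one]
      rw [h6, hσ]
      exact hρ1
    by_cases hi0 : i = 0
    · rw [h4, hi0, pow_zero, one_mul]
    · exfalso
      have h6 : W p (ζ ^ ((⟨0, Nat.pos_of_ne_zero hb⟩ : Fin b) : ℕ) * ρ - 1) < 1 := by
        simpa using hρ1
      have h7 := near_unique p hζ hpb hWρ h6 (t := ⟨i, hi⟩) (fun h => hi0 (congrArg Fin.val h))
      simp only at h7
      rw [← h4] at h7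
      rw [h7] at h5
      exact lt_irrefl _ h5
  rw [hyρ]
  exact mul_mem (pow_mem hζQ _) hρQ

/-- first order expansions -/
theorem pow_first {ρ : A} {ν : ℝ} (h : W p (ρ - 1) ≤ ν) (hν : ν ≤ 1) (k : ℕ) :
    W p (ρ ^ k - 1 - k * (ρ - 1)) ≤ ν ^ 2 := by
  have hν0 : 0 ≤ ν := (W_nonneg p _).trans h
  have hρ : W p ρ ≤ 1 := by
    have h2 : ρ = (ρ - 1) + 1 := by ring
    rw [h2]
    refine (W_add_le p _ _).trans (max_le (h.trans hν) (by rw [W_one]))
  induction k with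
  | zero => simpa [W_zero] using pow_nonneg hν0 2
  | succ k ih =>
    have h1 : ρ ^ (k + 1) - 1 - ((k + 1 : ℕ) : A) * (ρ - 1) = ρ * (ρ ^ k - 1 - k * (ρ - 1)) + ((k : ℤ) : A) * ((ρ - 1) * (ρ - 1)) := by
      push_cast
      ring
    rw [h1]
    refine (W_add_le p _ _).trans (max_le ?_ ?_)
    · rw [W_mul]
      calc W p ρ * W p (ρ ^ k - 1 - k * (ρ - 1)) ≤ 1 * ν ^ 2 := mul_le_mul hρ ih (W_nonneg p _) zero_le_one
        _ = ν ^ 2 := one_mul _
    · rw [W_mul, W_mul]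
      have h2 : W p (ρ - 1) * W p (ρ - 1) ≤ ν * ν := mul_le_mul h h (W_nonneg p _) hν0
      calc W p (((k : ℤ)) : A) * (W p (ρ - 1) * W p (ρ - 1)) ≤ 1 * (ν * ν) :=
            mul_le_mul (W_int_le p _) h2 (mul_nonneg (W_nonneg p _) (W_nonneg p _)) zero_le_one
        _ = ν ^ 2 := by ring

theorem prod_first {T : Type*} (S : Finset T) (x : T → A) {ν : ℝ} (hν0 : 0 ≤ ν) (h : ∀ t ∈ S, W p (x t - 1) ≤ ν)
    (hν : ν ≤ 1) : W p (∏ t ∈ S, x t - 1) ≤ ν ∧ W p (∏ t ∈ S, x t - 1 - ∑ t ∈ S, (x t - 1)) ≤ ν ^ 2 := by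
  classical
  induction S using Finset.induction_on with
  | empty => simpa [W_zero] using ⟨hν0, pow_nonneg hν0 2⟩
  | insert a S ha ih =>
    obtain ⟨ih1, ih2⟩ := ih fun t ht => h t (Finset.mem_insert_of_mem ht)
    have hxa := h a (Finset.mem_insert_self a S)
    rw [Finset.prod_insert ha, Finset.sum_insert ha]
    set y := ∏ t ∈ S, x t with hy
    have h3 : W p ((x a - 1) * (y - 1)) ≤ ν ^ 2 := by
      rw [W_mul, sq]
      exact mul_le_mul hxa ih1 (W_nonneg p _) hν0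
    have h4 : ν ^ 2 ≤ ν := by nlinarith
    constructor
    · have h1 : x a * y - 1 = (x a - 1) + ((y - 1) + (x a - 1) * (y - 1)) := by ring
      rw [h1]
      exact (W_add_le p _ _).trans (max_le hxa ((W_add_le p _ _).trans (max_le ih1 (h3.trans h4))))
    · have h1 : x a * y - 1 - (x a - 1 + ∑ t ∈ S, (x t - 1)) = (y - 1 - ∑ t ∈ S, (x t - 1)) + (x a - 1) * (y - 1) := by ring
      rw [h1]
      exact (W_add_le p _ _).trans (max_le ih2 h3)

theorem prod_pow_first {T : Type*} (S : Finset T) (ρ : T → A) (e : T → ℕ) {ν : ℝ} (hν0 : 0 ≤ ν)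
    (h : ∀ t ∈ S, W p (ρ t - 1) ≤ ν) (hν : ν ≤ 1) :
    W p (∏ t ∈ S, ρ t ^ e t - 1) ≤ ν ∧ W p (∏ t ∈ S, ρ t ^ e t - 1 - ∑ t ∈ S, (e t : A) * (ρ t - 1)) ≤ ν ^ 2 := by
  have h4 : ν ^ 2 ≤ ν := by nlinarith
  have h1 : ∀ t ∈ S, W p (ρ t ^ e t - 1) ≤ ν := by
    intro t ht
    have h2 := pow_first p (h t ht) hν (e t)
    have h3 : ρ t ^ e t - 1 = (ρ t ^ e t - 1 - e t * (ρ t - 1)) + ((e t : ℤ) : A) * (ρ t - 1) := by
      push_cast
      ring
    rw [h3]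
    refine (W_add_le p _ _).trans (max_le (h2.trans h4) ?_)
    rw [W_mul]
    calc W p ((e t : ℤ) : A) * W p (ρ t - 1) ≤ 1 * ν := mul_le_mul (W_int_le p _) (h t ht) (W_nonneg p _) zero_le_one
      _ = ν := one_mul _
  obtain ⟨h5, h6⟩ := prod_first p S (fun t => ρ t ^ e t) hν0 h1 hν
  refine ⟨h5, ?_⟩
  have h7 : ∏ t ∈ S, ρ t ^ e t - 1 - ∑ t ∈ S, (e t : A) * (ρ t - 1) =
      (∏ t ∈ S, ρ t ^ e t - 1 - ∑ t ∈ S, (ρ t ^ e t - 1)) + ∑ t ∈ S, (ρ t ^ e t - 1 - e t * (ρ t - 1)) := by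
    have h8 : ∑ t ∈ S, (ρ t ^ e t - 1 - (e t : A) * (ρ t - 1)) = ∑ t ∈ S, (ρ t ^ e t - 1) - ∑ t ∈ S, (e t : A) * (ρ t - 1) :=
      Finset.sum_sub_distrib _ _
    rw [h8]
    ring
  rw [h7]
  refine (W_add_le p _ _).trans (max_le h6 ?_)
  apply W_sum_le p _ _ _ (pow_nonneg hν0 2)
  intro t ht
  exact pow_first p (h t ht) hν (e t)

end

/-- Chinese remainder theorem -/
theorem icrt {ι : Type} [Fintype ι] (m : ι → ℕ) (hm0 : ∀ i, m i ≠ 0) (hm : ∀ i j, i ≠ j → Nat.Coprime (m i) (m j))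
    (d : ι → ℤ) : ∃ c : ℕ, ∀ i, (m i : ℤ) ∣ (c : ℤ) - d i := by
  classical
  obtain ⟨y, hy⟩ := Ideal.exists_forall_sub_mem_ideal (R := ℤ)
    (I := fun i => Ideal.span {(m i : ℤ)}) (by
      intro i j hij
      show IsCoprime (Ideal.span {(m i : ℤ)}) (Ideal.span {(m j : ℤ)})
      rw [Ideal.isCoprime_span_singleton_iff, Nat.isCoprime_iff_coprime]
      exact hm i j hij) d
  set Q0 : ℤ := ∏ i, (m i : ℤ) with hQ0
  have hQ00 : Q0 ≠ 0 := Finset.prod_ne_zero_iff.2 fun i _ => by exact_mod_cast hm0 i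
  have h1 := Int.emod_nonneg y hQ00
  refine ⟨(y % Q0).toNat, fun i => ?_⟩
  rw [Int.toNat_of_nonneg h1]
  have h2 : (m i : ℤ) ∣ Q0 := Finset.dvd_prod_of_mem (fun i => (m i : ℤ)) (Finset.mem_univ i)
  have h3 : (m i : ℤ) ∣ y % Q0 - y := by
    have h4 : y % Q0 - y = -(Q0 * (y / Q0)) := by
      have := Int.emod_add_mul_ediv y Q0
      linarith
    rw [h4]
    exact (h2.mul_right _).neg_right
  have h5 := hy i
  rw [Ideal.mem_span_singleton] at h5
  have h6 : y % Q0 - d i = (y % Q0 - y) + (y - d i) := by ring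
  rw [h6]
  exact dvd_add h3 h5

section
variable {A : Type} [Field A] [CharZero A] [Algebra.IsAlgebraic ℚ A] [IsAlgClosed A]

/-- approximation by an integer at several primes -/
theorem crt {ι : Type} [Fintype ι] (P : ι → ℕ) [hP : ∀ i, Fact (P i).Prime] (hinj : Function.Injective P)
    (x : ι → A) (hx : ∀ i, x i ∈ Q A (P i)) (h1 : ∀ i, W (P i) (x i) ≤ 1) :
    ∃ c : ℤ, ∀ i, W (P i) (x i - c) = (P i : ℝ)⁻¹ := by
  have h2 : ∀ i, ∃ d : ℤ, W (P i) (x i - d) = (P i : ℝ)⁻¹ := by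
    intro i
    obtain ⟨n, hn⟩ := int_approx (P i) (hx i) (h1 i)
    rcases hn.eq_or_lt with h3 | h3
    · exact ⟨n, h3⟩
    · refine ⟨n - P i, ?_⟩
      have h4 : x i - ((n - (P i : ℤ) : ℤ) : A) = (P i : A) + (x i - n) := by
        push_cast
        ring
      rw [h4, W_add_eq, W_p]
      rw [W_p]
      exact h3
  choose d hd using h2
  obtain ⟨c, hc⟩ := icrt (fun i => P i ^ 2) (fun i => pow_ne_zero 2 (hP i).out.ne_zero) (by
    intro i j hij
    exact Nat.Coprime.pow 2 2 ((Nat.coprime_primes (hP i).out (hP j).out).2 (fun h => hij (hinj h)))) d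
  refine ⟨c, fun i => ?_⟩
  have h4 : x i - ((c : ℤ) : A) = (x i - d i) + (((d i - c : ℤ)) : A) := by
    push_cast
    ring
  rw [h4, W_add_eq, hd i]
  rw [hd i]
  obtain ⟨t, ht⟩ := hc i
  have h5 : (d i - c : ℤ) = (P i : ℤ) * ((P i : ℤ) * -t) := by
    push_cast at ht
    linear_combination -ht
  rw [h5]
  push_cast
  rw [W_mul, W_mul, W_p]
  have h6 := inv_p_pos (P i)
  have h7 := inv_p_lt (P i)
  have h8 : W (P i) (-(t : A)) ≤ 1 := by
    rw [W_neg]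
    exact W_int_le _ t
  have h9 := W_nonneg (P i) (-(t : A))
  have h10 : (P i : ℝ)⁻¹ * W (P i) (-(t : A)) < 1 := by nlinarith
  nlinarith

end

end Pool.Agent.H450.FR
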