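import Pool.Agent.H450.FR.Fro

set_option autoImplicit false
set_option linter.unusedSectionVars false

namespace Pool.Agent.H450.FR

open Polynomial Pool.Agent.H450.GG Pool.Agent.H450.GW

section
variable {A : Type} [Field A] [CharZero A] [Algebra.IsAlgebraic ℚ A] [IsAlgClosed A]

theorem not_dvd_card {F : Type} [Field F] [Fintype F] {q : ℕ} [hq : Fact q.Prime] [Algebra (ZMod q) F]
    (p : ℕ) [hp : Fact p.Prime] (hqp : q ∣ p - 1) : ¬ p ∣ Fintype.card F := by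
  have hchar : CharP F q := charP_of_injective_algebraMap (algebraMap (ZMod q) F).injective q
  intro hd
  obtain ⟨nn, -, hcard⟩ := FiniteField.card F q
  rw [hcard] at hd
  exact not_dvd_of_pred p hqp (hp.out.dvd_of_dvd_pow hd)

theorem W_of_near_one {p : ℕ} [Fact p.Prime] {x : A} (h : W p (x - 1) < 1) : W p x = 1 := by
  have h2 : x = 1 + (x - 1) := by ring
  rw [h2, W_one_add p h]

theorem exists_theta {F : Type} [Field F] [Fintype F] [DecidableEq F] {q M : ℕ} [hq : Fact q.Prime] [NeZero M]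
    [Algebra (ZMod q) F] (hM : 2 ≤ M) {h : Fˣ} (hord : orderOf h = M) {lam : F →ₗ[ZMod q] ZMod q}
    (nd : ∀ i : F, i ≠ 0 → ∃ x, lam (i * x) ≠ 0)
    (gen : ∀ S : AddSubgroup F, (∀ x ∈ S, ((h⁻¹ : Fˣ) : F) * x ∈ S) → (∃ x ∈ S, x ≠ 0) → S = ⊤)
    {N : ℕ} (hN : 0 < N) (P₁ : Fin N → ℕ) [hP₁ : ∀ i, Fact (P₁ i).Prime] (P₂ : Fin 2 → ℕ) [hP₂ : ∀ i, Fact (P₂ i).Prime]
    (hinj : Function.Injective (Sum.elim P₁ P₂)) (hM1 : ∀ i, M ∣ P₁ i - 1) (hM2 : ∀ i, M ∣ P₂ i - 1)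
    (hq1 : ∀ i, q ∣ P₁ i - 1) (hq2 : ∀ i, q ∣ P₂ i - 1) :
    ∃ θ : F → A, (∀ i, IsIntegral ℤ (θ i)) ∧
      (∀ σ : A ≃ₐ[ℚ] A, ∃ (m : ℕ) (x : F), ∀ i, σ (θ i) = θ ((h : F) ^ m * i + x)) ∧
      (∀ x : F, ∃ σ : A ≃ₐ[ℚ] A, ∀ i, σ (θ i) = θ (i + x)) ∧
      Function.Injective θ ∧ (∀ i, θ i ≠ 0) ∧
      (∀ l, ∃ a : F, W (P₁ l) (θ a - 1) ≤ rho M (P₁ l) ∧ (∀ i, i ≠ a → W (P₁ l) (θ i) < 1) ∧
        ∀ j : ZMod M, W (P₁ l) (θ (a - (hp h j : F))) = rho M (P₁ l)) ∧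
      (∃ a : F, W (P₂ 1) (θ a) = (P₂ 1 : ℝ)⁻¹ ∧ ∀ i, i ≠ a → θ i ∈ Q A (P₂ 1) ∧ W (P₂ 1) (θ i - 1) < 1) := by
  classical
  have hM0 : M ≠ 0 := NeZero.ne M
  obtain ⟨th, h1, h2, ⟨τ, y, hτ⟩, ⟨σ0, x0, hx0, hσ0⟩, h5, ⟨a', h6⟩⟩ :=
    exists_th (A := A) hM hord nd hN P₁ P₂ hinj hM1 hM2 hq1 hq2
  -- the translations
  let Tr : AddSubgroup F :=
    { carrier := {x | ∃ σ : A ≃ₐ[ℚ] A, ∀ i, σ (th i) = th (i + x)}
      zero_mem' := ⟨AlgEquiv.refl, fun i => by simp⟩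
      add_mem' := by
        rintro x y ⟨σ, hσ⟩ ⟨τ, hτ⟩
        exact ⟨σ.trans τ, fun i => by rw [AlgEquiv.trans_apply, hσ, hτ, add_assoc]⟩
      neg_mem' := by
        rintro x ⟨σ, hσ⟩
        refine ⟨σ.symm, fun i => ?_⟩
        rw [AlgEquiv.symm_apply_eq, hσ]
        congr 1
        ring }
  have hTr : Tr = ⊤ := by
    apply gen
    · rintro x ⟨σ, hσ⟩
      refine ⟨(τ.symm.trans σ).trans τ, fun i => ?_⟩
      have e1 : τ.symm (th i) = th ((h : F) * (i - y)) := by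
        rw [AlgEquiv.symm_apply_eq, hτ]
        congr 1
        have e2 : ((h⁻¹ : Fˣ) : F) * (h : F) = 1 := Units.inv_mul h
        linear_combination (-(i - y)) * e2
      rw [AlgEquiv.trans_apply, AlgEquiv.trans_apply, e1, hσ, hτ]
      congr 1
      have e2 : ((h⁻¹ : Fˣ) : F) * (h : F) = 1 := Units.inv_mul h
      linear_combination (i - y) * e2
    · exact ⟨x0, ⟨σ0, hσ0⟩, hx0⟩
  have htr : ∀ x : F, ∃ σ : A ≃ₐ[ℚ] A, ∀ i, σ (th i) = th (i + x) := by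
    intro x
    have : x ∈ Tr := by rw [hTr]; trivial
    exact this
  -- the constants
  set n : A := (Fintype.card F : A) with hn
  set P : Fin N ⊕ Fin 2 → ℕ := Sum.elim P₁ P₂ with hP
  have hPF : ∀ i, Fact (P i).Prime := by
    rintro (i | i)
    · exact hP₁ i
    · exact hP₂ i
  have hrq : ∀ i, q ∣ P i - 1 := by
    rintro (i | i)
    · exact hq1 i
    · exact hq2 i
  have hcard : ∀ i, ¬ P i ∣ Fintype.card F := fun i => not_dvd_card (q := q) (P i) (hrq i)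
  have hn0 : n ≠ 0 := by
    rw [hn]
    exact_mod_cast Fintype.card_ne_zero
  have hWn : ∀ i, W (P i) (n⁻¹) = 1 := fun i => W_nat_inv (P i) (hcard i)
  have hWn' : ∀ i, W (P i) n = 1 := by
    intro i
    have := hWn i
    rw [W_inv] at this
    exact inv_eq_one.1 this
  have hnQ : ∀ i, n⁻¹ ∈ Q A (P i) := fun i => inv_mem (nat_Q _ _)
  obtain ⟨s, hs⟩ := crt P hinj (Sum.elim (fun _ => n⁻¹) (fun _ => -n⁻¹)) (by
      rintro (i | i)
      · exact hnQ (Sum.inl i)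
      · exact neg_mem (hnQ (Sum.inr i))) (by
      rintro (i | i)
      · exact (hWn (Sum.inl i)).le
      · simp only [Sum.elim_inr]
        rw [W_neg]
        exact (hWn (Sum.inr i)).le)
  have hsi : ∀ (p : ℕ) [Fact p.Prime], W p (s : A) ≤ 1 := fun p _ => W_int_le p s
  obtain ⟨m, hm⟩ := crt P hinj (Sum.elim (fun _ => 0) ![0, -(s : A) * th a']) (by
      rintro (i | i)
      · exact zero_mem _
      · fin_cases i
        · exact zero_mem _
        · exact mul_mem (neg_mem (intCast_mem _ _)) (h6 a').1) (by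
      rintro (i | i)
      · simp only [Sum.elim_inl]
        rw [W_zero]
        exact zero_le_one
      · fin_cases i
        · show W (P₂ 0) (0 : A) ≤ 1
          rw [W_zero]
          exact zero_le_one
        · show W (P₂ 1) (-(s : A) * th a') ≤ 1
          apply W_integral
          apply IsIntegral.mul _ (h1 a')
          apply IsIntegral.neg
          simpa using isIntegral_algebraMap (R := ℤ) (A := A) (x := s))
  set θ : F → A := fun i => s * th i + m with hθ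
  have hact : ∀ {σ : A ≃ₐ[ℚ] A} {i j : F}, σ (th i) = th j → σ (θ i) = θ j := by
    intro σ i j hij
    rw [hθ]
    simp only
    rw [map_add, map_mul, map_intCast, map_intCast, hij]
  have hθtr : ∀ x : F, ∃ σ : A ≃ₐ[ℚ] A, ∀ i, σ (θ i) = θ (i + x) := by
    intro x
    obtain ⟨σ, hσ⟩ := htr x
    exact ⟨σ, fun i => hact (hσ i)⟩
  -- the place `P₂ 1`
  have hs' : W (P₂ 1) (-n⁻¹ - s) = (P₂ 1 : ℝ)⁻¹ := hs (Sum.inr 1)
  have hm' : W (P₂ 1) (-(s : A) * th a' - m) = (P₂ 1 : ℝ)⁻¹ := hm (Sum.inr 1)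
  have h61 : W (P₂ 1) (th a' - n) ≤ (P₂ 1 : ℝ)⁻¹ := by
    have := (h6 a').2
    rwa [if_pos rfl] at this
  have hE1 : W (P₂ 1) (θ a') = (P₂ 1 : ℝ)⁻¹ := by
    rw [← hm', ← W_neg]
    congr 1
    rw [hθ]
    ring
  have hE2 : ∀ i, i ≠ a' → W (P₂ 1) (θ i - 1) ≤ (P₂ 1 : ℝ)⁻¹ := by
    intro i hi
    have h7 := (h6 i).2
    rw [if_neg hi, sub_zero] at h7
    have e1 : θ i - 1 = s * th i - (-(s : A) * th a' - m) - s * (th a' - n) + (-n⁻¹ - s) * n := by
      rw [hθ]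
      simp only
      have e2 : n⁻¹ * n = 1 := inv_mul_cancel₀ hn0
      linear_combination e2
    rw [e1]
    refine (W_add_le _ _ _).trans (max_le ((W_sub_le _ _ _).trans (max_le ((W_sub_le _ _ _).trans (max_le ?_ hm'.le)) ?_)) ?_)
    · rw [W_mul]
      calc W (P₂ 1) (s : A) * W (P₂ 1) (th i) ≤ 1 * (P₂ 1 : ℝ)⁻¹ := mul_le_mul (hsi _) h7 (W_nonneg _ _) zero_le_one
        _ = _ := one_mul _
    · rw [W_mul]
      calc W (P₂ 1) (s : A) * W (P₂ 1) (th a' - n) ≤ 1 * (P₂ 1 : ℝ)⁻¹ := mul_le_mul (hsi _) h61 (W_nonneg _ _) zero_le_one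
        _ = _ := one_mul _
    · have h8 : W (P₂ 1) n = 1 := hWn' (Sum.inr 1)
      rw [W_mul, hs', h8, mul_one]
  have hE3 : ∀ i, i ≠ a' → W (P₂ 1) (θ i) = 1 := fun i hi => W_of_near_one (lt_of_le_of_lt (hE2 i hi) (inv_p_lt _))
  have hinjθ : Function.Injective θ := by
    intro i j hij
    by_contra hne
    obtain ⟨σ, hσ⟩ := hθtr (a' - i)
    have e1 := hσ i
    rw [hij, hσ j] at e1
    have e2 : i + (a' - i) = a' := by ring
    rw [e2] at e1
    have e3 : j + (a' - i) ≠ a' := by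
      intro h7
      apply hne
      linear_combination -h7
    have e4 := hE3 _ e3
    rw [e1, hE1] at e4
    exact absurd (inv_p_lt (P₂ 1)) (by rw [e4]; exact lt_irrefl _)
  refine ⟨θ, ?_, ?_, hθtr, hinjθ, ?_, ?_, ⟨a', hE1, ?_⟩⟩
  · intro i
    rw [hθ]
    apply IsIntegral.add
    · apply IsIntegral.mul _ (h1 i)
      simpa using isIntegral_algebraMap (R := ℤ) (A := A) (x := s)
    · simpa using isIntegral_algebraMap (R := ℤ) (A := A) (x := m)
  · intro σ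
    obtain ⟨m', x, hσ⟩ := h2 σ
    exact ⟨m', x, fun i => hact (hσ i)⟩
  · intro i h0
    by_cases hi : i = a'
    · rw [hi] at h0
      rw [h0, W_zero] at hE1
      exact (inv_p_pos (P₂ 1)).ne hE1
    · have := hE3 i hi
      rw [h0, W_zero] at this
      exact zero_ne_one this
  · intro l
    obtain ⟨a, ha1, ha2⟩ := h5 l
    have hν0 := rho_pos M (P₁ l)
    have hν1 := rho_lt hM0 (P₁ l)
    have hν3 : rho M (P₁ l) ^ 2 < rho M (P₁ l) := by nlinarith
    have hpν := inv_le_rho_sq (p := P₁ l) hM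
    have hpν' : (P₁ l : ℝ)⁻¹ ≤ rho M (P₁ l) := hpν.trans hν3.le
    have hs1 : W (P₁ l) (n⁻¹ - s) = (P₁ l : ℝ)⁻¹ := hs (Sum.inl l)
    have hm1 : W (P₁ l) (0 - (m : A)) = (P₁ l : ℝ)⁻¹ := hm (Sum.inl l)
    rw [zero_sub, W_neg] at hm1
    have hs2 : W (P₁ l) (s : A) = 1 := by
      rw [← hWn (Sum.inl l)]
      apply W_eq_of_sub_lt
      rw [W_sub_comm]
      have h8 : W (P₁ l) (n⁻¹) = 1 := hWn (Sum.inl l)
      show W (P₁ l) (n⁻¹ - s) < W (P₁ l) (n⁻¹)
      rw [hs1, h8]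
      exact inv_p_lt _
    refine ⟨a, ?_, ?_, ?_⟩
    · have h7 := ha1 a
      rw [if_pos rfl] at h7
      have e1 : θ a - 1 = s * (th a - n) + ((m : A) - (n⁻¹ - s) * n) := by
        rw [hθ]
        simp only
        have e2 : n⁻¹ * n = 1 := inv_mul_cancel₀ hn0
        linear_combination e2
      rw [e1]
      refine (W_add_le _ _ _).trans (max_le ?_ ((W_sub_le _ _ _).trans (max_le (hm1.le.trans hpν') ?_)))
      · rw [W_mul, hs2, one_mul]
        exact h7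
      · rw [W_mul, hs1]
        have h8 : W (P₁ l) n = 1 := hWn' (Sum.inl l)
        rw [h8, mul_one]
        exact hpν'
    · intro i hi
      have h7 := ha1 i
      rw [if_neg hi, sub_zero] at h7
      refine lt_of_le_of_lt ((W_add_le _ _ _).trans (max_le ?_ (hm1.le.trans hpν'))) hν1
      rw [W_mul, hs2, one_mul]
      exact h7
    · intro j
      have h7 : W (P₁ l) ((s : A) * th (a - (hp h j : F))) = rho M (P₁ l) := by
        rw [W_mul, hs2, one_mul]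
        exact ha2 j
      rw [← h7]
      apply W_add_eq
      rw [h7, hm1]
      exact lt_of_le_of_lt hpν hν3
  · intro i hi
    refine ⟨?_, lt_of_le_of_lt (hE2 i hi) (inv_p_lt _)⟩
    exact add_mem (mul_mem (intCast_mem _ _) (h6 i).1) (intCast_mem _ _)

end

end Pool.Agent.H450.FR
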